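import Pool.Agent.H68.BB.Plc
import Pool.Agent.H68.BB.Red

/-! # QG.Def : zero-cycles on an open part of the fibre product of two elliptic surfaces over the line (definitions only, no sorry)

`K` is a field (in the theorem: algebraically closed of characteristic different from `2` and `3`), `a`, `b`, `a'`, `b'` are forms in two variables of degrees `4n`,
`6n`, `4n'`, `6n'`, `g` is a form.  `X` is the fibre product over `ℙ¹` of the Weierstrass fibrations `W : Y^2 Z = X^3 + a(s) X Z^2 + b(s) Z^3` and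
`W' : V^2 R = U^3 + a'(s) U R^2 + b'(s) R^3`: a point is `(s₀ : s₁ ; X : Y : Z ; U : V : R)`, where
`(s₀, s₁, X, Y, Z, U, V, R)` and `(l s₀, l s₁, μ l^(2n) X, μ l^(3n) Y, μ Z, ν l^(2n') U, ν l^(3n') V, ν R)` are the same point.
`X_g` is the open part `g(s) ≠ 0` of `X`.
`Om K` is an algebraic closure of `K(t)`, `Place K (Om K)` a `K`-rational place of it, `Rd V φ x a` means `x ∈ V` and `φ x = a`. -/

namespace H90.QG

open H68.BB

/-- homogeneous coordinates `(s₀ : s₁ ; X : Y : Z ; U : V : R)` -/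
@[ext] structure PX (F : Type) where
  s₀ : F
  s₁ : F
  X : F
  Y : F
  Z : F
  U : F
  V : F
  R : F

/-- apply a map to the coordinates -/
def PX.map {F F' : Type} (f : F → F') (p : PX F) : PX F' := ⟨f p.s₀, f p.s₁, f p.X, f p.Y, f p.Z, f p.U, f p.V, f p.R⟩

/-- none of the three coordinate vectors is zero -/
def PX.NZ {F : Type} [Zero F] (p : PX F) : Prop :=
  (p.s₀ ≠ 0 ∨ p.s₁ ≠ 0) ∧ (p.X ≠ 0 ∨ p.Y ≠ 0 ∨ p.Z ≠ 0) ∧ (p.U ≠ 0 ∨ p.V ≠ 0 ∨ p.R ≠ 0)

/-- the value of a form in `s₀`, `s₁` -/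
noncomputable def frm {K F : Type} [Field K] [Field F] [Algebra K F] (f : MvPolynomial (Fin 2) K) (s₀ s₁ : F) : F :=
  MvPolynomial.aeval ![s₀, s₁] f

/-- the point lies on the open part `X_g` (`g(s) ≠ 0`) of the fibre product `X` -/
def OnX {K F : Type} [Field K] [Field F] [Algebra K F] (g a b a' b' : MvPolynomial (Fin 2) K) (p : PX F) : Prop :=
  p.NZ ∧ frm g p.s₀ p.s₁ ≠ 0 ∧ p.Y ^ 2 * p.Z = p.X ^ 3 + frm a p.s₀ p.s₁ * p.X * p.Z ^ 2 + frm b p.s₀ p.s₁ * p.Z ^ 3 ∧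
    p.V ^ 2 * p.R = p.U ^ 3 + frm a' p.s₀ p.s₁ * p.U * p.R ^ 2 + frm b' p.s₀ p.s₁ * p.R ^ 3

variable {K : Type} [Field K]

/-- specialisation at a place to a point with `g(s) ≠ 0`: some coordinate vector of the point `p` is integral and reduces to `q` -/
def SpX (g : MvPolynomial (Fin 2) K) (n n' : ℕ) (π : Place K (Om K)) (p : PX (Om K)) (q : PX K) : Prop :=
  q.NZ ∧ frm g q.s₀ q.s₁ ≠ 0 ∧ ∃ l μ ν : Om K, l ≠ 0 ∧ μ ≠ 0 ∧ ν ≠ 0 ∧ Rd π.V π.φ (l * p.s₀) q.s₀ ∧ Rd π.V π.φ (l * p.s₁) q.s₁ ∧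
    Rd π.V π.φ (μ * l ^ (2 * n) * p.X) q.X ∧ Rd π.V π.φ (μ * l ^ (3 * n) * p.Y) q.Y ∧ Rd π.V π.φ (μ * p.Z) q.Z ∧
    Rd π.V π.φ (ν * l ^ (2 * n') * p.U) q.U ∧ Rd π.V π.φ (ν * l ^ (3 * n') * p.V) q.V ∧ Rd π.V π.φ (ν * p.R) q.R

/-- zero-cycles: the free abelian group on coordinate vectors -/
abbrev Cy (K : Type) : Type := PX K →₀ ℤ

/-- the zero-cycle given by a multiset of points -/
noncomputable def cyc (M : Multiset (PX K)) : Cy K := (M.map fun p => Finsupp.single p 1).sum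

/-- stable under all automorphisms of `Ω` over `K(t)` (in characteristic `p` a `p^m`-fold multiple is a cycle over `K(t)`) -/
def GalSt (M : Multiset (PX (Om K))) : Prop := ∀ σ : Om K ≃ₐ[RatFunc K] Om K, M.map (PX.map σ) = M

/-- the subgroup generated by the differences of two fibres over `ℙ¹` of effective 1-cycles of `ℙ¹ × X` which are dominant over
`ℙ¹`, both fibres lying in `X_g` -/
noncomputable def RatEq (g : MvPolynomial (Fin 2) K) (n n' : ℕ) (a b a' b' : MvPolynomial (Fin 2) K) : AddSubgroup (Cy K) :=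
  AddSubgroup.closure {z | ∃ (M : Multiset (PX (Om K))) (π π' : Place K (Om K))
    (q q' : Multiset (PX K)), (∀ p ∈ M, OnX g a b a' b' p) ∧ GalSt M ∧
    Multiset.Rel (SpX g n n' π) M q ∧ Multiset.Rel (SpX g n n' π') M q' ∧ z = cyc q - cyc q'}

/-- a zero-cycle on `X_g` -/
def IsCy (g a b a' b' : MvPolynomial (Fin 2) K) (z : Cy K) : Prop := ∀ p ∈ z.support, OnX g a b a' b' p

/-- the degree -/
noncomputable def dg (z : Cy K) : ℤ := z.sum fun _ n => n

/-- `(P, Q) ↦ (O, Q)`: `(X : Y : Z)` replaced by `(0 : 1 : 0)` -/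
def PX.o1 {F : Type} [Zero F] [One F] (p : PX F) : PX F := ⟨p.s₀, p.s₁, 0, 1, 0, p.U, p.V, p.R⟩

/-- `(P, Q) ↦ (P, O)`: `(U : V : R)` replaced by `(0 : 1 : 0)` -/
def PX.o2 {F : Type} [Zero F] [One F] (p : PX F) : PX F := ⟨p.s₀, p.s₁, p.X, p.Y, p.Z, 0, 1, 0⟩

/-- `(P, Q) ↦ (O, O)` -/
def PX.oo {F : Type} [Zero F] [One F] (p : PX F) : PX F := ⟨p.s₀, p.s₁, 0, 1, 0, 0, 1, 0⟩

/-- the zero-cycle `[P, Q] - [P, O] - [O, Q] + [O, O]` -/
noncomputable def bx (p : PX K) : Cy K :=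
  Finsupp.single p 1 - Finsupp.single p.o2 1 - Finsupp.single p.o1 1 + Finsupp.single p.oo 1

/-- the involution `(s ; X : Y : Z ; U : V : R) ↦ (s ; X : -Y : Z ; U : -V : R)`, `(P, Q) ↦ (-P, -Q)` -/
def io (p : PX K) : PX K := ⟨p.s₀, p.s₁, p.X, -p.Y, p.Z, p.U, -p.V, p.R⟩

/-- the involution on zero-cycles -/
noncomputable def ioC (z : Cy K) : Cy K := Finsupp.mapDomain io z

/-- rational equivalence on the quotient by the involution: zero-cycles on `X_g` modulo `RatEq` and modulo the involution -/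
noncomputable def RatEqQ (g : MvPolynomial (Fin 2) K) (n n' : ℕ) (a b a' b' : MvPolynomial (Fin 2) K) : AddSubgroup (Cy K) :=
  RatEq g n n' a b a' b' ⊔ AddSubgroup.closure {z | ∃ w : Cy K, IsCy g a b a' b' w ∧ z = w - ioC w}

end H90.QG
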