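import Pool.Agent.H90.QG.KKP
import Pool.Agent.H90.QF.Pack

/-! # QG.Emb : charts of `X_g`, points of `X_g` given by pairs of points of a chart (complete) -/

namespace H90.QG

open Polynomial H68.BB
open H71.K3 (OverPl place_over)
open H90.QF

/-- the restriction of a form to the line `s = a + σ r` -/
noncomputable def ln {K : Type} [Field K] (a₀ a₁ r₀ r₁ : K) (p : MvPolynomial (Fin 2) K) : K[X] :=
  MvPolynomial.aeval ![C a₀ + C r₀ * X, C a₁ + C r₁ * X] p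

theorem ln_eval {K F : Type} [Field K] [Field F] [Algebra K F] (a₀ a₁ r₀ r₁ : K) (p : MvPolynomial (Fin 2) K) (σ : F) :
    aeval σ (ln a₀ a₁ r₀ r₁ p) = frm p (algebraMap K F a₀ + algebraMap K F r₀ * σ) (algebraMap K F a₁ + algebraMap K F r₁ * σ) := by
  unfold ln frm
  induction p using MvPolynomial.induction_on with
  | C a => rw [MvPolynomial.aeval_C, MvPolynomial.aeval_C, Polynomial.algebraMap_apply, aeval_C]; rfl
  | add p q hp hq => rw [map_add, map_add, map_add, hp, hq]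
  | mul_X p i hp =>
    rw [map_mul, map_mul, map_mul, hp, MvPolynomial.aeval_X, MvPolynomial.aeval_X]
    congr 1
    fin_cases i
    · simp
    · simp

theorem ln_deg {K : Type} [Field K] (a₀ a₁ r₀ r₁ : K) {p : MvPolynomial (Fin 2) K} {n : ℕ} (hp : p.IsHomogeneous n) :
    (ln a₀ a₁ r₀ r₁ p).natDegree ≤ n := by
  have h1 : p.totalDegree ≤ n := hp.totalDegree_le
  have h2 := MvPolynomial.aeval_natDegree_le (m := n) (n := 1) p h1 (![C a₀ + C r₀ * X, C a₁ + C r₁ * X] : Fin 2 → K[X]) (by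
    intro i
    have hl : ∀ z z' : K, (C z + C z' * X : K[X]).natDegree ≤ 1 := fun z z' => by
      refine (natDegree_add_le _ _).trans (max_le (by rw [natDegree_C]; exact Nat.zero_le _) ?_)
      exact (natDegree_C_mul_le _ _).trans natDegree_X_le
    fin_cases i
    · exact hl _ _
    · exact hl _ _)
  rw [mul_one] at h2
  exact h2

section emb
variable {K : Type} [Field K] {a₀ a₁ r₀ r₁ : K} {g a b a' b' : MvPolynomial (Fin 2) K}
variable {F : Type} [Field F] [Algebra K F]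

theorem o1_on {p : PX F} (hp : OnX g a b a' b' p) : OnX g a b a' b' p.o1 := by
  obtain ⟨⟨h1, -, h3⟩, hg, -, h5⟩ := hp
  refine ⟨⟨h1, Or.inr (Or.inl one_ne_zero), h3⟩, hg, ?_, h5⟩
  show (1 : F) ^ 2 * 0 = 0 ^ 3 + frm a p.s₀ p.s₁ * 0 * 0 ^ 2 + frm b p.s₀ p.s₁ * 0 ^ 3
  ring

theorem o2_on {p : PX F} (hp : OnX g a b a' b' p) : OnX g a b a' b' p.o2 := by
  obtain ⟨⟨h1, h2, -⟩, hg, h4, -⟩ := hp
  refine ⟨⟨h1, h2, Or.inr (Or.inl one_ne_zero)⟩, hg, h4, ?_⟩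
  show (1 : F) ^ 2 * 0 = 0 ^ 3 + frm a' p.s₀ p.s₁ * 0 * 0 ^ 2 + frm b' p.s₀ p.s₁ * 0 ^ 3
  ring

theorem oo_on {p : PX F} (hp : OnX g a b a' b' p) : OnX g a b a' b' p.oo := o1_on (o2_on hp)

variable (a₀ a₁ r₀ r₁ a b) in
/-- the family of a chart -/
noncomputable abbrev FC : Fam K := FL (ln a₀ a₁ r₀ r₁ a) (ln a₀ a₁ r₀ r₁ b)

/-- the point of `X` given by a pair of points of the chart -/
noncomputable def em (P : Pt (FC a₀ a₁ r₀ r₁ a b) F) (Q : Pt (FC a₀ a₁ r₀ r₁ a' b') F) : PX F where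
  s₀ := algebraMap K F a₀ + algebraMap K F r₀ * P.t X
  s₁ := algebraMap K F a₁ + algebraMap K F r₁ * P.t X
  X := P.x
  Y := P.y
  Z := 1
  U := Q.x
  V := Q.y
  R := 1

theorem lin_nz (hd : a₀ * r₁ - a₁ * r₀ ≠ 0) (σ : F) :
    algebraMap K F a₀ + algebraMap K F r₀ * σ ≠ 0 ∨ algebraMap K F a₁ + algebraMap K F r₁ * σ ≠ 0 := by
  by_contra hc
  rw [not_or, not_not, not_not] at hc
  obtain ⟨h1, h2⟩ := hc
  have h3 : algebraMap K F (a₀ * r₁ - a₁ * r₀) = 0 := by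
    rw [map_sub, map_mul, map_mul]
    linear_combination algebraMap K F r₁ * h1 - algebraMap K F r₀ * h2
  exact hd ((map_eq_zero_iff _ (algebraMap K F).injective).1 h3)

theorem em_on (hd : a₀ * r₁ - a₁ * r₀ ≠ 0) (P : Pt (FC a₀ a₁ r₀ r₁ a b) F) (Q : Pt (FC a₀ a₁ r₀ r₁ a' b') F) (hts : P.t = Q.t)
    (hg : aeval (P.t X) (ln a₀ a₁ r₀ r₁ g) ≠ 0) : OnX g a b a' b' (em P Q) := by
  rw [ln_eval] at hg
  have e1 : P.t (FC a₀ a₁ r₀ r₁ a b).a = frm a (algebraMap K F a₀ + algebraMap K F r₀ * P.t X)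
      (algebraMap K F a₁ + algebraMap K F r₁ * P.t X) := by
    rw [← ln_eval]
    exact congrArg (fun f : K[X] →ₐ[K] F => f (ln a₀ a₁ r₀ r₁ a)) (t_X P.t)
  have e2 : P.t (FC a₀ a₁ r₀ r₁ a b).b = frm b (algebraMap K F a₀ + algebraMap K F r₀ * P.t X)
      (algebraMap K F a₁ + algebraMap K F r₁ * P.t X) := by
    rw [← ln_eval]
    exact congrArg (fun f : K[X] →ₐ[K] F => f (ln a₀ a₁ r₀ r₁ b)) (t_X P.t)
  have e3 : Q.t (FC a₀ a₁ r₀ r₁ a' b').a = frm a' (algebraMap K F a₀ + algebraMap K F r₀ * P.t X)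
      (algebraMap K F a₁ + algebraMap K F r₁ * P.t X) := by
    rw [hts, ← ln_eval]
    exact congrArg (fun f : K[X] →ₐ[K] F => f (ln a₀ a₁ r₀ r₁ a')) (t_X Q.t)
  have e4 : Q.t (FC a₀ a₁ r₀ r₁ a' b').b = frm b' (algebraMap K F a₀ + algebraMap K F r₀ * P.t X)
      (algebraMap K F a₁ + algebraMap K F r₁ * P.t X) := by
    rw [hts, ← ln_eval]
    exact congrArg (fun f : K[X] →ₐ[K] F => f (ln a₀ a₁ r₀ r₁ b')) (t_X Q.t)
  refine ⟨⟨lin_nz hd (P.t X), Or.inr (Or.inr one_ne_zero), Or.inr (Or.inr one_ne_zero)⟩, hg, ?_, ?_⟩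
  · show P.y ^ 2 * 1 = P.x ^ 3 + frm a (algebraMap K F a₀ + algebraMap K F r₀ * P.t X) (algebraMap K F a₁ + algebraMap K F r₁ * P.t X)
      * P.x * 1 ^ 2 + frm b (algebraMap K F a₀ + algebraMap K F r₀ * P.t X) (algebraMap K F a₁ + algebraMap K F r₁ * P.t X) * 1 ^ 3
    rw [P.eq, e1, e2]
    ring
  · show Q.y ^ 2 * 1 = Q.x ^ 3 + frm a' (algebraMap K F a₀ + algebraMap K F r₀ * P.t X) (algebraMap K F a₁ + algebraMap K F r₁ * P.t X)
      * Q.x * 1 ^ 2 + frm b' (algebraMap K F a₀ + algebraMap K F r₀ * P.t X) (algebraMap K F a₁ + algebraMap K F r₁ * P.t X) * 1 ^ 3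
    rw [Q.eq, e3, e4]
    ring

end emb

section cst
variable {K : Type} [Field K] {g a b a' b' : MvPolynomial (Fin 2) K}

theorem frm_cst {F : Type} [Field F] [Algebra K F] (p : MvPolynomial (Fin 2) K) (s₀ s₁ : K) :
    frm p (algebraMap K F s₀) (algebraMap K F s₁) = algebraMap K F (frm p s₀ s₁) := by
  unfold frm
  induction p using MvPolynomial.induction_on with
  | C a => rw [MvPolynomial.aeval_C, MvPolynomial.aeval_C]; rfl
  | add p q hp hq => rw [map_add, map_add, map_add, hp, hq]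
  | mul_X p i hp =>
    rw [map_mul, map_mul, map_mul, hp, MvPolynomial.aeval_X, MvPolynomial.aeval_X]
    congr 1
    fin_cases i <;> rfl

theorem onX_cst {F : Type} [Field F] [Algebra K F] {p : PX K} (hp : OnX g a b a' b' p) :
    OnX g a b a' b' (p.map (algebraMap K F)) := by
  obtain ⟨h1, hg, h2, h3⟩ := hp
  have e0 : ∀ z : K, algebraMap K F z ≠ 0 ↔ z ≠ 0 := fun z => by rw [ne_eq, ne_eq, map_eq_zero]
  refine ⟨?_, ?_, ?_, ?_⟩
  · unfold PX.NZ at h1 ⊢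
    simp only [PX.map, e0]
    exact h1
  · change frm g (algebraMap K F p.s₀) (algebraMap K F p.s₁) ≠ 0
    rw [frm_cst, e0]
    exact hg
  · change (algebraMap K F p.Y) ^ 2 * algebraMap K F p.Z = (algebraMap K F p.X) ^ 3 +
      frm a (algebraMap K F p.s₀) (algebraMap K F p.s₁) * algebraMap K F p.X * (algebraMap K F p.Z) ^ 2 +
      frm b (algebraMap K F p.s₀) (algebraMap K F p.s₁) * (algebraMap K F p.Z) ^ 3
    rw [frm_cst, frm_cst, ← map_pow, ← map_mul, h2]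
    simp only [map_add, map_mul, map_pow]
  · change (algebraMap K F p.V) ^ 2 * algebraMap K F p.R = (algebraMap K F p.U) ^ 3 +
      frm a' (algebraMap K F p.s₀) (algebraMap K F p.s₁) * algebraMap K F p.U * (algebraMap K F p.R) ^ 2 +
      frm b' (algebraMap K F p.s₀) (algebraMap K F p.s₁) * (algebraMap K F p.R) ^ 3
    rw [frm_cst, frm_cst, ← map_pow, ← map_mul, h3]
    simp only [map_add, map_mul, map_pow]

theorem spX_cst {n n' : ℕ} (π : Place K (Om K)) {p : PX K} (hp : p.NZ) (hg : frm g p.s₀ p.s₁ ≠ 0) :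
    SpX g n n' π (p.map (algebraMap K (Om K))) p :=
  ⟨hp, hg, 1, 1, 1, one_ne_zero, one_ne_zero, one_ne_zero, by rw [one_mul]; exact π.const _, by rw [one_mul]; exact π.const _,
    by rw [one_pow, one_mul, one_mul]; exact π.const _, by rw [one_pow, one_mul, one_mul]; exact π.const _,
    by rw [one_mul]; exact π.const _, by rw [one_pow, one_mul, one_mul]; exact π.const _,
    by rw [one_pow, one_mul, one_mul]; exact π.const _, by rw [one_mul]; exact π.const _⟩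

/-- multiples of the coordinates in the fibres -/
def PX.sc {F : Type} [Mul F] (μ ν : F) (p : PX F) : PX F := ⟨p.s₀, p.s₁, μ * p.X, μ * p.Y, μ * p.Z, ν * p.U, ν * p.V, ν * p.R⟩

theorem spX_sc {n n' : ℕ} (π : Place K (Om K)) {p : PX K} (hp : p.NZ) (hg : frm g p.s₀ p.s₁ ≠ 0) {μ ν : K} (hμ : μ ≠ 0) (hν : ν ≠ 0) :
    SpX g n n' π (p.map (algebraMap K (Om K))) (p.sc μ ν) := by
  have hc : ∀ z : K, z ≠ 0 → algebraMap K (Om K) z ≠ 0 := fun z hz => by rwa [ne_eq, map_eq_zero]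
  refine ⟨?_, hg, 1, algebraMap K (Om K) μ, algebraMap K (Om K) ν, one_ne_zero, hc _ hμ, hc _ hν,
    ?_, ?_, ?_, ?_, ?_, ?_, ?_, ?_⟩
  · obtain ⟨h1, h2, h3⟩ := hp
    refine ⟨h1, ?_, ?_⟩
    · rcases h2 with h2 | h2 | h2
      · exact Or.inl (mul_ne_zero hμ h2)
      · exact Or.inr (Or.inl (mul_ne_zero hμ h2))
      · exact Or.inr (Or.inr (mul_ne_zero hμ h2))
    · rcases h3 with h3 | h3 | h3
      · exact Or.inl (mul_ne_zero hν h3)
      · exact Or.inr (Or.inl (mul_ne_zero hν h3))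
      · exact Or.inr (Or.inr (mul_ne_zero hν h3))
  · rw [one_mul]; exact π.const _
  · rw [one_mul]; exact π.const _
  · rw [one_pow, mul_one]; exact Rd.mul (π.const _) (π.const _)
  · rw [one_pow, mul_one]; exact Rd.mul (π.const _) (π.const _)
  · exact Rd.mul (π.const _) (π.const _)
  · rw [one_pow, mul_one]; exact Rd.mul (π.const _) (π.const _)
  · rw [one_pow, mul_one]; exact Rd.mul (π.const _) (π.const _)
  · exact Rd.mul (π.const _) (π.const _)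

theorem sg_map (σ : Om K ≃ₐ[RatFunc K] Om K) (p : PX K) : ac σ (p.map (algebraMap K (Om K))) = p.map (algebraMap K (Om K)) := by
  refine PX.ext ?_ ?_ ?_ ?_ ?_ ?_ ?_ ?_ <;> exact sg_cst σ _

variable [IsAlgClosed K] {n n' : ℕ}

/-- coordinate vectors of the same point have the same class -/
theorem kl_sp {p q : PX K} (hp : OnX g a b a' b' p) (hq : ∀ π : Place K (Om K), SpX g n n' π (p.map (algebraMap K (Om K))) q) :
    kl g n n' a b a' b' p = kl g n n' a b a' b' q := by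
  obtain ⟨π, -⟩ := place_over (k := K) (some 0)
  have h1 := kl_ratEq (g := g) (n := n) (n' := n') (a := a) (b := b) (a' := a') (b' := b')
    (M := {p.map (algebraMap K (Om K))}) (π := π) (π' := π) (q := {p}) (q' := {q}) (by
      intro x hx
      rw [Multiset.mem_singleton] at hx
      rw [hx]
      exact onX_cst hp) (by
      intro σ
      rw [Multiset.map_singleton]
      exact congrArg _ (sg_map σ p)) (by
      refine Multiset.rel_cons_left.2 ⟨p, 0, ?_, Multiset.rel_zero_left.2 rfl, rfl⟩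
      exact spX_cst π hp.1 hp.2.1) (by
      refine Multiset.rel_cons_left.2 ⟨q, 0, hq π, Multiset.rel_zero_left.2 rfl, rfl⟩)
  rw [Multiset.map_singleton, Multiset.map_singleton, Multiset.sum_singleton, Multiset.sum_singleton] at h1
  exact h1

theorem kl_sc {p : PX K} (hp : OnX g a b a' b' p) {μ ν : K} (hμ : μ ≠ 0) (hν : ν ≠ 0) :
    kl g n n' a b a' b' (p.sc μ ν) = kl g n n' a b a' b' p :=
  (kl_sp hp fun π => spX_sc π hp.1 hp.2.1 hμ hν).symm

end cst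

section spec
variable {K : Type} [Field K]

/-- specialisation of the coordinates in a plane -/
def S3 (π : Place K (Om K)) (X Y Z : Om K) (x y z : K) : Prop :=
  (x ≠ 0 ∨ y ≠ 0 ∨ z ≠ 0) ∧ ∃ μ : Om K, μ ≠ 0 ∧ Rd π.V π.φ (μ * X) x ∧ Rd π.V π.φ (μ * Y) y ∧ Rd π.V π.φ (μ * Z) z

theorem S3.one {π : Place K (Om K)} {X Y Z : Om K} {x y z : K} (h : x ≠ 0 ∨ y ≠ 0 ∨ z ≠ 0) (hX : Rd π.V π.φ X x)
    (hY : Rd π.V π.φ Y y) (hZ : Rd π.V π.φ Z z) : S3 π X Y Z x y z :=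
  ⟨h, 1, one_ne_zero, by rw [one_mul]; exact hX, by rw [one_mul]; exact hY, by rw [one_mul]; exact hZ⟩

theorem S3.oo (π : Place K (Om K)) : S3 π 0 1 0 0 1 0 :=
  S3.one (Or.inr (Or.inl one_ne_zero)) Rd.zero Rd.one Rd.zero

theorem S3.pt {S : Fam K} {π : Place K (Om K)} {P : Pt S (Om K)} {P₀ : Pt S K} (hP : RdP π P P₀) : S3 π P.x P.y 1 P₀.x P₀.y 1 :=
  S3.one (Or.inr (Or.inr one_ne_zero)) hP.x hP.y Rd.one

/-- a point of a cubic which is not integral goes to the point at infinity -/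
theorem S3.inf {S : Fam K} {π : Place K (Om K)} {P : Pt S (Om K)} (hb : BI π P.t) (hn : ¬P.Int π) : S3 π P.x P.y 1 0 1 0 := by
  have := π.isLocal
  have he := P.eq
  have ha : P.t S.a ∈ π.V := hb _
  have hb' : P.t S.b ∈ π.V := hb _
  have hx : P.x ∉ π.V := by
    intro hx
    apply hn
    refine ⟨hb, hx, ?_⟩
    have h1 : P.y ^ 2 ∈ π.V := by
      rw [he]
      exact π.V.add_mem _ _ (π.V.add_mem _ _ (pow_mem hx 3) (π.V.mul_mem _ _ ha hx)) hb'
    obtain ⟨z, hz, -⟩ := rd_pow_root π (by norm_num : 0 < 2) (Rd.of_mem (φ := π.φ) h1)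
    exact hz.mem
  have hx0 : P.x ≠ 0 := by
    intro h0
    rw [h0] at hx
    exact hx π.V.zero_mem
  have hθ : Rd π.V π.φ P.x⁻¹ 0 := Rd.inv_zero hx
  have h2 : Rd π.V π.φ (P.y ^ 2 * P.x⁻¹ ^ 3) 1 := by
    have e1 : P.y ^ 2 * P.x⁻¹ ^ 3 = 1 + P.t S.a * P.x⁻¹ ^ 2 + P.t S.b * P.x⁻¹ ^ 3 := by
      rw [he]
      field_simp
    rw [e1]
    have h3 := (Rd.one (V := π.V) (φ := π.φ)).add ((Rd.of_mem (φ := π.φ) ha).mul (hθ.pow 2))
    have h4 := h3.add ((Rd.of_mem (φ := π.φ) hb').mul (hθ.pow 3))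
    simpa using h4
  have hy0 : P.y ≠ 0 := by
    intro h0
    rw [h0] at h2
    have h3 := h2.ne_zero one_ne_zero
    simp at h3
  have h5 : Rd π.V π.φ (P.x ^ 3 / P.y ^ 2) 1 := by
    have h6 := h2.inv one_ne_zero
    have e1 : (P.y ^ 2 * P.x⁻¹ ^ 3)⁻¹ = P.x ^ 3 / P.y ^ 2 := by
      field_simp
    rw [e1, inv_one] at h6
    exact h6
  refine ⟨Or.inr (Or.inl one_ne_zero), P.y⁻¹, inv_ne_zero hy0, ?_, ?_, ?_⟩
  · have h7 : Rd π.V π.φ ((P.y⁻¹ * P.x) ^ 2) 0 := by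
      have h8 := hθ.mul h5
      rw [zero_mul] at h8
      have e1 : P.x⁻¹ * (P.x ^ 3 / P.y ^ 2) = (P.y⁻¹ * P.x) ^ 2 := by
        field_simp
      rw [e1] at h8
      exact h8
    obtain ⟨z, hz, hz0⟩ := rd_pow_root π (by norm_num : 0 < 2) h7
    rw [pow_eq_zero_iff (by norm_num)] at hz0
    rw [hz0] at hz
    exact hz
  · rw [inv_mul_cancel₀ hy0]
    exact Rd.one
  · have h7 : Rd π.V π.φ ((P.y⁻¹ * 1) ^ 2) 0 := by
      have h8 := (hθ.pow 3).mul h5
      rw [zero_pow (by norm_num), zero_mul] at h8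
      have e1 : P.x⁻¹ ^ 3 * (P.x ^ 3 / P.y ^ 2) = (P.y⁻¹ * 1) ^ 2 := by
        field_simp
      rw [e1] at h8
      exact h8
    obtain ⟨z, hz, hz0⟩ := rd_pow_root π (by norm_num : 0 < 2) h7
    rw [pow_eq_zero_iff (by norm_num)] at hz0
    rw [hz0] at hz
    exact hz

/-- the specialisation of a point over an integral base point -/
theorem spX_mk {g : MvPolynomial (Fin 2) K} {n n' : ℕ} {π : Place K (Om K)} {s₀ s₁ X Y Z U V R : Om K} {t₀ t₁ x y z u v r : K} (hn : t₀ ≠ 0 ∨ t₁ ≠ 0)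
    (hg : frm g t₀ t₁ ≠ 0) (h0 : Rd π.V π.φ s₀ t₀) (h1 : Rd π.V π.φ s₁ t₁) (h2 : S3 π X Y Z x y z) (h3 : S3 π U V R u v r) :
    SpX g n n' π ⟨s₀, s₁, X, Y, Z, U, V, R⟩ ⟨t₀, t₁, x, y, z, u, v, r⟩ := by
  obtain ⟨n2, μ, hμ, a1, a2, a3⟩ := h2
  obtain ⟨n3, ν, hν, b1, b2, b3⟩ := h3
  refine ⟨⟨hn, n2, n3⟩, hg, 1, μ, ν, one_ne_zero, hμ, hν, ?_, ?_, ?_, ?_, ?_, ?_, ?_, ?_⟩
  · rw [one_mul]; exact h0
  · rw [one_mul]; exact h1
  · rw [one_pow, mul_one]; exact a1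
  · rw [one_pow, mul_one]; exact a2
  · exact a3
  · rw [one_pow, mul_one]; exact b1
  · rw [one_pow, mul_one]; exact b2
  · exact b3

end spec

end H90.QG
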