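import Pool.Agent.H90.QG.Prj

/-! # QG.Fin : forms, charts, relations on the fibres (complete) -/

namespace H90.QG

open Polynomial H68.BB
open H71.K3 (OverPl place_over)
open H90.QF

section frm
variable {K : Type} [Field K]

theorem frm_sm {p : MvPolynomial (Fin 2) K} {n : ℕ} (hp : p.IsHomogeneous n) (l s₀ s₁ : K) :
    frm p (l * s₀) (l * s₁) = l ^ n * frm p s₀ s₁ := by
  unfold frm
  rw [MvPolynomial.aeval_def, MvPolynomial.aeval_def, MvPolynomial.eval₂_eq', MvPolynomial.eval₂_eq', Finset.mul_sum]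
  refine Finset.sum_congr rfl fun d hd => ?_
  have h1 : d.degree = n := by
    by_contra h2
    exact (MvPolynomial.mem_support_iff.1 hd) (hp.coeff_eq_zero h2)
  have h2 : d 0 + d 1 = n := by
    rw [← h1, Finsupp.degree_eq_sum, Fin.sum_univ_two]
  rw [Fin.prod_univ_two, Fin.prod_univ_two]
  simp only [Matrix.cons_val_zero, Matrix.cons_val_one]
  rw [← h2, pow_add]
  ring

/-- a chart centred at `a` whose point at infinity is neither `a` nor the given point -/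
theorem exists_chart [IsAlgClosed K] {a₀ a₁ ρ₀ ρ₁ : K} (ha : a₀ ≠ 0 ∨ a₁ ≠ 0) (hρ : ρ₀ ≠ 0 ∨ ρ₁ ≠ 0) :
    ∃ r₀ r₁ : K, a₀ * r₁ - a₁ * r₀ ≠ 0 ∧ ρ₀ * r₁ - ρ₁ * r₀ ≠ 0 := by
  classical
  have hinf : Infinite K := IsAlgClosed.instInfinite
  obtain ⟨t, ht⟩ := Infinite.exists_notMem_finset ({a₁ / a₀, ρ₁ / ρ₀} : Finset K)
  rw [Finset.mem_insert, Finset.mem_singleton, not_or] at ht
  have key : ∀ b₀ b₁ : K, (b₀ ≠ 0 ∨ b₁ ≠ 0) → t ≠ b₁ / b₀ → b₀ * t - b₁ * 1 ≠ 0 := by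
    intro b₀ b₁ hb htb h0
    by_cases hb0 : b₀ = 0
    · rw [hb0, zero_mul, mul_one, zero_sub, neg_eq_zero] at h0
      rcases hb with h1 | h1
      · exact h1 hb0
      · exact h1 h0
    · apply htb
      rw [eq_div_iff hb0]
      linear_combination h0
  exact ⟨1, t, key _ _ ha ht.1, key _ _ hρ ht.2⟩

theorem chart_root {p g : MvPolynomial (Fin 2) K} {n e : ℕ} (hp : p.IsHomogeneous n) (hg : g.IsHomogeneous e) {a₀ a₁ ρ₀ ρ₁ r₀ r₁ : K}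
    (hρ : ρ₀ ≠ 0 ∨ ρ₁ ≠ 0) (h0 : frm p ρ₀ ρ₁ = 0) (g0 : frm g ρ₀ ρ₁ ≠ 0) (hd : a₀ * r₁ - a₁ * r₀ ≠ 0) (h1 : ρ₀ * r₁ - ρ₁ * r₀ ≠ 0) :
    ∃ u : K, aeval u (ln a₀ a₁ r₀ r₁ p) = 0 ∧ aeval u (ln a₀ a₁ r₀ r₁ g) ≠ 0 := by
  refine ⟨(a₀ * ρ₁ - a₁ * ρ₀) / (ρ₀ * r₁ - ρ₁ * r₀), ?_⟩
  rw [ln_eval, ln_eval]
  have hnz := lin_nz (F := K) hd ((a₀ * ρ₁ - a₁ * ρ₀) / (ρ₀ * r₁ - ρ₁ * r₀))
  change a₀ + r₀ * ((a₀ * ρ₁ - a₁ * ρ₀) / (ρ₀ * r₁ - ρ₁ * r₀)) ≠ 0 ∨ a₁ + r₁ * ((a₀ * ρ₁ - a₁ * ρ₀) / (ρ₀ * r₁ - ρ₁ * r₀)) ≠ 0 at hnz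
  change frm p (a₀ + r₀ * ((a₀ * ρ₁ - a₁ * ρ₀) / (ρ₀ * r₁ - ρ₁ * r₀))) (a₁ + r₁ * ((a₀ * ρ₁ - a₁ * ρ₀) / (ρ₀ * r₁ - ρ₁ * r₀))) = 0 ∧
    frm g (a₀ + r₀ * ((a₀ * ρ₁ - a₁ * ρ₀) / (ρ₀ * r₁ - ρ₁ * r₀))) (a₁ + r₁ * ((a₀ * ρ₁ - a₁ * ρ₀) / (ρ₀ * r₁ - ρ₁ * r₀))) ≠ 0
  set u : K := (a₀ * ρ₁ - a₁ * ρ₀) / (ρ₀ * r₁ - ρ₁ * r₀) with hu
  have hu' : u * (ρ₀ * r₁ - ρ₁ * r₀) = a₀ * ρ₁ - a₁ * ρ₀ := by
    rw [hu, div_mul_cancel₀ _ h1]
  have hdet : (a₀ + r₀ * u) * ρ₁ = (a₁ + r₁ * u) * ρ₀ := by linear_combination -hu'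
  obtain ⟨l, e1, e2⟩ : ∃ l : K, a₀ + r₀ * u = l * ρ₀ ∧ a₁ + r₁ * u = l * ρ₁ := by
    rcases hρ with h2 | h2
    · refine ⟨(a₀ + r₀ * u) / ρ₀, by field_simp, ?_⟩
      field_simp
      linear_combination -hdet
    · refine ⟨(a₁ + r₁ * u) / ρ₁, ?_, by field_simp⟩
      field_simp
      linear_combination hdet
  have hl : l ≠ 0 := by
    intro hl
    rw [e1, e2, hl, zero_mul, zero_mul] at hnz
    rcases hnz with h | h <;> exact h rfl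
  rw [e1, e2, frm_sm hp, frm_sm hg, h0, mul_zero]
  exact ⟨rfl, mul_ne_zero (pow_ne_zero e hl) g0⟩

/-- the conditions on the forms in a chart -/
theorem dat_ln {a b a' b' q A B E : MvPolynomial (Fin 2) K} (a₀ a₁ r₀ r₁ : K) (hA : a * a' = q ^ 4 * A) (hB : b * b' = q ^ 6 * B)
    (hE : (4 * a ^ 3 + 27 * b ^ 2) * (4 * a' ^ 3 + 27 * b' ^ 2) = q ^ 12 * E)
    (dA : A.IsHomogeneous 4) (dB : B.IsHomogeneous 6) (dE : E.IsHomogeneous 12) :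
    Dat (ln a₀ a₁ r₀ r₁ a) (ln a₀ a₁ r₀ r₁ b) (ln a₀ a₁ r₀ r₁ a') (ln a₀ a₁ r₀ r₁ b') (ln a₀ a₁ r₀ r₁ q)
      (ln a₀ a₁ r₀ r₁ A) (ln a₀ a₁ r₀ r₁ B) (ln a₀ a₁ r₀ r₁ E) := by
  refine ⟨?_, ?_, ?_, ln_deg _ _ _ _ dA, ln_deg _ _ _ _ dB, ln_deg _ _ _ _ dE⟩
  · have h := congrArg (ln a₀ a₁ r₀ r₁) hA
    unfold ln at h ⊢
    rwa [map_mul, map_mul, map_pow] at h
  · have h := congrArg (ln a₀ a₁ r₀ r₁) hB
    unfold ln at h ⊢
    rwa [map_mul, map_mul, map_pow] at h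
  · have h := congrArg (ln a₀ a₁ r₀ r₁) hE
    unfold ln at h ⊢
    simp only [map_mul, map_add, map_pow, map_ofNat] at h
    exact h

end frm

section fib
variable {K : Type} [Field K]

/-- a constant family -/
abbrev CF (α β : K) : Fam K where
  R := K
  a := α
  b := β

theorem cf_t {α β : K} {F : Type} [Field F] [Algebra K F] (t : (CF α β).R →ₐ[K] F) (c : K) : t c = algebraMap K F c := t.commutes c

/-- `Y` replaced by `-Y` -/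
def PX.n1 {F : Type} [Neg F] (p : PX F) : PX F := ⟨p.s₀, p.s₁, p.X, -p.Y, p.Z, p.U, p.V, p.R⟩

/-- `V` replaced by `-V` -/
def PX.n2 {F : Type} [Neg F] (p : PX F) : PX F := ⟨p.s₀, p.s₁, p.X, p.Y, p.Z, p.U, -p.V, p.R⟩

theorem S3.cst (π : Place K (Om K)) {x y z : K} (h : x ≠ 0 ∨ y ≠ 0 ∨ z ≠ 0) :
    S3 π (algebraMap K (Om K) x) (algebraMap K (Om K) y) (algebraMap K (Om K) z) x y z :=
  S3.one h (π.const _) (π.const _) (π.const _)

variable {g a b a' b' : MvPolynomial (Fin 2) K}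

theorem n1_on {F : Type} [Field F] [Algebra K F] {p : PX F} (hp : OnX g a b a' b' p) : OnX g a b a' b' p.n1 := by
  obtain ⟨⟨h1, h2, h3⟩, hg, h4, h5⟩ := hp
  refine ⟨⟨h1, ?_, h3⟩, hg, ?_, h5⟩
  · rcases h2 with h2 | h2 | h2
    · exact Or.inl h2
    · exact Or.inr (Or.inl (neg_ne_zero.2 h2))
    · exact Or.inr (Or.inr h2)
  · show (-p.Y) ^ 2 * p.Z = _
    rw [neg_sq]
    exact h4

theorem n2_on {F : Type} [Field F] [Algebra K F] {p : PX F} (hp : OnX g a b a' b' p) : OnX g a b a' b' p.n2 := by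
  obtain ⟨⟨h1, h2, h3⟩, hg, h4, h5⟩ := hp
  refine ⟨⟨h1, h2, ?_⟩, hg, h4, ?_⟩
  · rcases h3 with h3 | h3 | h3
    · exact Or.inl h3
    · exact Or.inr (Or.inl (neg_ne_zero.2 h3))
    · exact Or.inr (Or.inr h3)
  · show (-p.V) ^ 2 * p.R = _
    rw [neg_sq]
    exact h5

variable [IsAlgClosed K] {n n' : ℕ}

theorem uu_sc {p : PX K} (hp : OnX g a b a' b' p) {μ ν : K} (hμ : μ ≠ 0) (hν : ν ≠ 0) :
    uu n n' g a b a' b' (p.sc μ ν) = uu n n' g a b a' b' p := by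
  unfold uu
  have e1 : kl g n n' a b a' b' (p.sc μ ν).o2 = kl g n n' a b a' b' p.o2 := by
    have h1 := kl_sc (n := n) (n' := n') (o2_on hp) hμ (one_ne_zero (α := K))
    have h2 : p.o2.sc μ 1 = (p.sc μ ν).o2 := by
      unfold PX.sc PX.o2
      simp only [one_mul]
    rwa [h2] at h1
  have e2 : kl g n n' a b a' b' (p.sc μ ν).o1 = kl g n n' a b a' b' p.o1 := by
    have h1 := kl_sc (n := n) (n' := n') (o1_on hp) (one_ne_zero (α := K)) hν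
    have h2 : p.o1.sc 1 ν = (p.sc μ ν).o1 := by
      unfold PX.sc PX.o1
      simp only [one_mul]
    rwa [h2] at h1
  have e3 : (p.sc μ ν).oo = p.oo := rfl
  rw [kl_sc hp hμ hν, e1, e2, e3]

/-- a point with `Z = 0` is at the zero section of `W` -/
theorem z_zero {p : PX K} (hp : OnX g a b a' b' p) (hz : p.Z = 0) : p.X = 0 ∧ p.Y ≠ 0 := by
  obtain ⟨⟨-, h2, -⟩, -, h4, -⟩ := hp
  rw [hz] at h4
  have h5 : p.X ^ 3 = 0 := by linear_combination -h4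
  have h6 : p.X = 0 := by rwa [pow_eq_zero_iff (by norm_num)] at h5
  refine ⟨h6, fun h7 => ?_⟩
  rcases h2 with h2 | h2 | h2
  · exact h2 h6
  · exact h2 h7
  · exact h2 hz

theorem r_zero {p : PX K} (hp : OnX g a b a' b' p) (hz : p.R = 0) : p.U = 0 ∧ p.V ≠ 0 := by
  obtain ⟨⟨-, -, h2⟩, -, -, h4⟩ := hp
  rw [hz] at h4
  have h5 : p.U ^ 3 = 0 := by linear_combination -h4
  have h6 : p.U = 0 := by rwa [pow_eq_zero_iff (by norm_num)] at h5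
  refine ⟨h6, fun h7 => ?_⟩
  rcases h2 with h2 | h2 | h2
  · exact h2 h6
  · exact h2 h7
  · exact h2 hz

/-- `[P] + [-P] = 2 [O]` on the fibres of `W` -/
theorem kl_n1 {p : PX K} (hp : OnX g a b a' b' p) :
    kl g n n' a b a' b' p + kl g n n' a b a' b' p.n1 = kl g n n' a b a' b' p.o1 + kl g n n' a b a' b' p.o1 := by
  by_cases hz : p.Z = 0
  · obtain ⟨hx, hy⟩ := z_zero hp hz
    have e1 : p.sc p.Y⁻¹ 1 = p.o1 := by
      unfold PX.sc PX.o1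
      rw [hx, hz, mul_zero, inv_mul_cancel₀ hy]
      simp only [one_mul]
    have e2 : p.n1.sc (-p.Y⁻¹) 1 = p.o1 := by
      unfold PX.sc PX.o1 PX.n1
      dsimp only
      rw [hx, hz, mul_zero, neg_mul_neg, inv_mul_cancel₀ hy]
      simp only [one_mul]
    rw [← kl_sc (n := n) (n' := n') hp (inv_ne_zero hy) (one_ne_zero (α := K)),
      ← kl_sc (n := n) (n' := n') (n1_on hp) (neg_ne_zero.2 (inv_ne_zero hy)) (one_ne_zero (α := K)), e1, e2]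
  obtain ⟨⟨hs, h2, h3⟩, hg, h4, h5⟩ := hp
  have hp : OnX g a b a' b' p := ⟨⟨hs, h2, h3⟩, hg, h4, h5⟩
  obtain ⟨P, hPx, hPy⟩ : ∃ P : Pt (CF (frm a p.s₀ p.s₁) (frm b p.s₀ p.s₁)) K, P.x = p.Z⁻¹ * p.X ∧ P.y = p.Z⁻¹ * p.Y := by
    refine ⟨⟨AlgHom.id K K, p.Z⁻¹ * p.X, p.Z⁻¹ * p.Y, ?_⟩, rfl, rfl⟩
    show (p.Z⁻¹ * p.Y) ^ 2 = (p.Z⁻¹ * p.X) ^ 3 + frm a p.s₀ p.s₁ * (p.Z⁻¹ * p.X) + frm b p.s₀ p.s₁
    field_simp
    linear_combination h4
  obtain ⟨T, hTt, hTx⟩ := r1_exists P.t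
  have hbi : ∀ π : Place K (Om K), BI π T.t := fun π => by
    rw [hTt]
    exact (RdB.cst π _).bi
  let c : K → Om K := algebraMap K (Om K)
  have hon : ∀ T' : Pt (CF (frm a p.s₀ p.s₁) (frm b p.s₀ p.s₁)) (Om K),
      OnX g a b a' b' (⟨c p.s₀, c p.s₁, T'.x, T'.y, 1, c p.U, c p.V, c p.R⟩ : PX (Om K)) := by
    intro T'
    obtain ⟨⟨g1, g2, g3⟩, g0, g4, g5⟩ := onX_cst (F := Om K) hp
    refine ⟨⟨g1, Or.inr (Or.inr one_ne_zero), g3⟩, g0, ?_, g5⟩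
    show T'.y ^ 2 * 1 = T'.x ^ 3 + frm a (algebraMap K (Om K) p.s₀) (algebraMap K (Om K) p.s₁) * T'.x * 1 ^ 2 +
      frm b (algebraMap K (Om K) p.s₀) (algebraMap K (Om K) p.s₁) * 1 ^ 3
    rw [T'.eq, cf_t, cf_t, frm_cst, frm_cst]
    ring
  have k1 : kl g n n' a b a' b' (⟨p.s₀, p.s₁, P.x, P.y, 1, p.U, p.V, p.R⟩ : PX K) = kl g n n' a b a' b' p := by
    rw [← kl_sc (n := n) (n' := n') hp (inv_ne_zero hz) (one_ne_zero (α := K))]
    unfold PX.sc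
    rw [hPx, hPy, inv_mul_cancel₀ hz]
    simp only [one_mul]
  have k2 : kl g n n' a b a' b' (⟨p.s₀, p.s₁, P.x, -P.y, 1, p.U, p.V, p.R⟩ : PX K) = kl g n n' a b a' b' p.n1 := by
    rw [← kl_sc (n := n) (n' := n') (n1_on hp) (inv_ne_zero hz) (one_ne_zero (α := K))]
    unfold PX.sc PX.n1
    rw [hPx, hPy]
    dsimp only
    rw [inv_mul_cancel₀ hz, mul_neg]
    simp only [one_mul]
  rw [← k1, ← k2]
  refine kkP [⟨c p.s₀, c p.s₁, T.x, T.y, 1, c p.U, c p.V, c p.R⟩, ⟨c p.s₀, c p.s₁, T.neg.x, T.neg.y, 1, c p.U, c p.V, c p.R⟩] []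
    ?_ ?_ (some P.x) none _ _ ?_ ?_
  · intro x hx
    simp only [List.mem_cons, List.not_mem_nil, or_false] at hx
    rcases hx with rfl | rfl
    · exact hon T
    · exact hon T.neg
  · intro x hx
    exact absurd hx List.not_mem_nil
  · intro π hπ
    have hx : Rd π.V π.φ T.x P.x := by
      rw [hTx]
      exact hπ
    rcases r1_cases hTt hx with h1 | h1
    · refine ⟨[⟨p.s₀, p.s₁, P.x, P.y, 1, p.U, p.V, p.R⟩, ⟨p.s₀, p.s₁, P.x, -P.y, 1, p.U, p.V, p.R⟩], [], ?_, List.Forall₂.nil, ?_⟩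
      · exact List.Forall₂.cons (spX_mk hs hg (π.const _) (π.const _) (S3.pt h1) (S3.cst π h3))
          (List.Forall₂.cons (spX_mk hs hg (π.const _) (π.const _) (S3.pt h1.neg) (S3.cst π h3)) List.Forall₂.nil)
      · simp only [List.map_cons, List.map_nil, List.sum_cons, List.sum_nil, add_zero, sub_zero]
    · have h2 := h1.neg
      rw [neg_neg_pt] at h2
      refine ⟨[⟨p.s₀, p.s₁, P.x, -P.y, 1, p.U, p.V, p.R⟩, ⟨p.s₀, p.s₁, P.x, P.y, 1, p.U, p.V, p.R⟩], [], ?_, List.Forall₂.nil, ?_⟩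
      · exact List.Forall₂.cons (spX_mk hs hg (π.const _) (π.const _) (S3.pt h1) (S3.cst π h3))
          (List.Forall₂.cons (spX_mk hs hg (π.const _) (π.const _) (S3.pt h2) (S3.cst π h3)) List.Forall₂.nil)
      · simp only [List.map_cons, List.map_nil, List.sum_cons, List.sum_nil, add_zero, sub_zero]
        abel
  · intro π hπ
    have hx : T.x ∉ π.V := by
      rw [hTx]
      exact hπ
    refine ⟨[p.o1, p.o1], [], ?_, List.Forall₂.nil, ?_⟩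
    · refine List.Forall₂.cons (spX_mk hs hg (π.const _) (π.const _) (S3.inf (hbi π) fun h1 => hx h1.2.1) (S3.cst π h3))
        (List.Forall₂.cons (spX_mk hs hg (π.const _) (π.const _) (S3.inf (P := T.neg) (hbi π) fun h1 => hx h1.2.1) (S3.cst π h3))
        List.Forall₂.nil)
    · simp only [List.map_cons, List.map_nil, List.sum_cons, List.sum_nil, add_zero, sub_zero]

/-- `[Q] + [-Q] = 2 [O]` on the fibres of `W'` -/
theorem kl_n2 {p : PX K} (hp : OnX g a b a' b' p) :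
    kl g n n' a b a' b' p + kl g n n' a b a' b' p.n2 = kl g n n' a b a' b' p.o2 + kl g n n' a b a' b' p.o2 := by
  by_cases hz : p.R = 0
  · obtain ⟨hx, hy⟩ := r_zero hp hz
    have e1 : p.sc 1 p.V⁻¹ = p.o2 := by
      unfold PX.sc PX.o2
      rw [hx, hz, mul_zero, inv_mul_cancel₀ hy]
      simp only [one_mul]
    have e2 : p.n2.sc 1 (-p.V⁻¹) = p.o2 := by
      unfold PX.sc PX.o2 PX.n2
      dsimp only
      rw [hx, hz, mul_zero, neg_mul_neg, inv_mul_cancel₀ hy]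
      simp only [one_mul]
    rw [← kl_sc (n := n) (n' := n') hp (one_ne_zero (α := K)) (inv_ne_zero hy),
      ← kl_sc (n := n) (n' := n') (n2_on hp) (one_ne_zero (α := K)) (neg_ne_zero.2 (inv_ne_zero hy)), e1, e2]
  obtain ⟨⟨hs, h2, h3⟩, hg, h4, h5⟩ := hp
  have hp : OnX g a b a' b' p := ⟨⟨hs, h2, h3⟩, hg, h4, h5⟩
  obtain ⟨P, hPx, hPy⟩ : ∃ P : Pt (CF (frm a' p.s₀ p.s₁) (frm b' p.s₀ p.s₁)) K, P.x = p.R⁻¹ * p.U ∧ P.y = p.R⁻¹ * p.V := by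
    refine ⟨⟨AlgHom.id K K, p.R⁻¹ * p.U, p.R⁻¹ * p.V, ?_⟩, rfl, rfl⟩
    show (p.R⁻¹ * p.V) ^ 2 = (p.R⁻¹ * p.U) ^ 3 + frm a' p.s₀ p.s₁ * (p.R⁻¹ * p.U) + frm b' p.s₀ p.s₁
    field_simp
    linear_combination h5
  obtain ⟨T, hTt, hTx⟩ := r1_exists P.t
  have hbi : ∀ π : Place K (Om K), BI π T.t := fun π => by
    rw [hTt]
    exact (RdB.cst π _).bi
  let c : K → Om K := algebraMap K (Om K)
  have hon : ∀ T' : Pt (CF (frm a' p.s₀ p.s₁) (frm b' p.s₀ p.s₁)) (Om K),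
      OnX g a b a' b' (⟨c p.s₀, c p.s₁, c p.X, c p.Y, c p.Z, T'.x, T'.y, 1⟩ : PX (Om K)) := by
    intro T'
    obtain ⟨⟨g1, g2, g3⟩, g0, g4, g5⟩ := onX_cst (F := Om K) hp
    refine ⟨⟨g1, g2, Or.inr (Or.inr one_ne_zero)⟩, g0, g4, ?_⟩
    show T'.y ^ 2 * 1 = T'.x ^ 3 + frm a' (algebraMap K (Om K) p.s₀) (algebraMap K (Om K) p.s₁) * T'.x * 1 ^ 2 +
      frm b' (algebraMap K (Om K) p.s₀) (algebraMap K (Om K) p.s₁) * 1 ^ 3
    rw [T'.eq, cf_t, cf_t, frm_cst, frm_cst]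
    ring
  have k1 : kl g n n' a b a' b' (⟨p.s₀, p.s₁, p.X, p.Y, p.Z, P.x, P.y, 1⟩ : PX K) = kl g n n' a b a' b' p := by
    rw [← kl_sc (n := n) (n' := n') hp (one_ne_zero (α := K)) (inv_ne_zero hz)]
    unfold PX.sc
    rw [hPx, hPy, inv_mul_cancel₀ hz]
    simp only [one_mul]
  have k2 : kl g n n' a b a' b' (⟨p.s₀, p.s₁, p.X, p.Y, p.Z, P.x, -P.y, 1⟩ : PX K) = kl g n n' a b a' b' p.n2 := by
    rw [← kl_sc (n := n) (n' := n') (n2_on hp) (one_ne_zero (α := K)) (inv_ne_zero hz)]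
    unfold PX.sc PX.n2
    rw [hPx, hPy]
    dsimp only
    rw [inv_mul_cancel₀ hz, mul_neg]
    simp only [one_mul]
  rw [← k1, ← k2]
  refine kkP [⟨c p.s₀, c p.s₁, c p.X, c p.Y, c p.Z, T.x, T.y, 1⟩, ⟨c p.s₀, c p.s₁, c p.X, c p.Y, c p.Z, T.neg.x, T.neg.y, 1⟩] []
    ?_ ?_ (some P.x) none _ _ ?_ ?_
  · intro x hx
    simp only [List.mem_cons, List.not_mem_nil, or_false] at hx
    rcases hx with rfl | rfl
    · exact hon T
    · exact hon T.neg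
  · intro x hx
    exact absurd hx List.not_mem_nil
  · intro π hπ
    have hx : Rd π.V π.φ T.x P.x := by
      rw [hTx]
      exact hπ
    rcases r1_cases hTt hx with h1 | h1
    · refine ⟨[⟨p.s₀, p.s₁, p.X, p.Y, p.Z, P.x, P.y, 1⟩, ⟨p.s₀, p.s₁, p.X, p.Y, p.Z, P.x, -P.y, 1⟩], [], ?_, List.Forall₂.nil, ?_⟩
      · exact List.Forall₂.cons (spX_mk hs hg (π.const _) (π.const _) (S3.cst π h2) (S3.pt h1))
          (List.Forall₂.cons (spX_mk hs hg (π.const _) (π.const _) (S3.cst π h2) (S3.pt h1.neg)) List.Forall₂.nil)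
      · simp only [List.map_cons, List.map_nil, List.sum_cons, List.sum_nil, add_zero, sub_zero]
    · have h6 := h1.neg
      rw [neg_neg_pt] at h6
      refine ⟨[⟨p.s₀, p.s₁, p.X, p.Y, p.Z, P.x, -P.y, 1⟩, ⟨p.s₀, p.s₁, p.X, p.Y, p.Z, P.x, P.y, 1⟩], [], ?_, List.Forall₂.nil, ?_⟩
      · exact List.Forall₂.cons (spX_mk hs hg (π.const _) (π.const _) (S3.cst π h2) (S3.pt h1))
          (List.Forall₂.cons (spX_mk hs hg (π.const _) (π.const _) (S3.cst π h2) (S3.pt h6)) List.Forall₂.nil)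
      · simp only [List.map_cons, List.map_nil, List.sum_cons, List.sum_nil, add_zero, sub_zero]
        abel
  · intro π hπ
    have hx : T.x ∉ π.V := by
      rw [hTx]
      exact hπ
    refine ⟨[p.o2, p.o2], [], ?_, List.Forall₂.nil, ?_⟩
    · refine List.Forall₂.cons (spX_mk hs hg (π.const _) (π.const _) (S3.cst π h2) (S3.inf (hbi π) fun h1 => hx h1.2.1))
        (List.Forall₂.cons (spX_mk hs hg (π.const _) (π.const _) (S3.cst π h2) (S3.inf (P := T.neg) (hbi π) fun h1 => hx h1.2.1))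
        List.Forall₂.nil)
    · simp only [List.map_cons, List.map_nil, List.sum_cons, List.sum_nil, add_zero, sub_zero]

omit [IsAlgClosed K] in
/-- the reduction of the value of a form -/
theorem rd_frm (π : Place K (Om K)) (f : MvPolynomial (Fin 2) K) {s₀ s₁ : Om K} {t₀ t₁ : K} (h0 : Rd π.V π.φ s₀ t₀)
    (h1 : Rd π.V π.φ s₁ t₁) : Rd π.V π.φ (frm f s₀ s₁) (frm f t₀ t₁) := by
  unfold frm
  induction f using MvPolynomial.induction_on with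
  | C c => rw [MvPolynomial.aeval_C, MvPolynomial.aeval_C]; exact π.const c
  | add p q hp hq => rw [map_add, map_add]; exact hp.add hq
  | mul_X p i hp =>
    rw [map_mul, map_mul, MvPolynomial.aeval_X, MvPolynomial.aeval_X]
    refine hp.mul ?_
    fin_cases i
    · exact h0
    · exact h1

/-- the points of the zero section have the same class -/
theorem kl_oo {s₀ s₁ t₀ t₁ : K} (hs : s₀ ≠ 0 ∨ s₁ ≠ 0) (ht : t₀ ≠ 0 ∨ t₁ ≠ 0) (gs : frm g s₀ s₁ ≠ 0) (gt : frm g t₀ t₁ ≠ 0) :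
    kl g n n' a b a' b' ⟨s₀, s₁, 0, 1, 0, 0, 1, 0⟩ = kl g n n' a b a' b' ⟨t₀, t₁, 0, 1, 0, 0, 1, 0⟩ := by
  let c : K → Om K := algebraMap K (Om K)
  have h0 : ∀ π : Place K (Om K), OverPl π (some 0) → ∀ s t : K, Rd π.V π.φ (c s + tt K * (c t - c s)) s := by
    intro π hπ s t
    have h1 : Rd π.V π.φ (tt K) 0 := hπ
    have h2 := Rd.add (π.const s) (Rd.mul h1 (Rd.sub (π.const t) (π.const s)))
    rw [zero_mul, add_zero] at h2
    exact h2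
  have h1 : ∀ π : Place K (Om K), OverPl π (some 1) → ∀ s t : K, Rd π.V π.φ (c s + tt K * (c t - c s)) t := by
    intro π hπ s t
    have h1 : Rd π.V π.φ (tt K) 1 := hπ
    have h2 := Rd.add (π.const s) (Rd.mul h1 (Rd.sub (π.const t) (π.const s)))
    rw [one_mul, add_sub_cancel] at h2
    exact h2
  refine kkP [⟨c s₀ + tt K * (c t₀ - c s₀), c s₁ + tt K * (c t₁ - c s₁), 0, 1, 0, 0, 1, 0⟩] [] ?_ ?_ (some 0) (some 1) _ _ ?_ ?_
  · intro x hx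
    rw [List.mem_singleton] at hx
    rw [hx]
    obtain ⟨π, hπ⟩ := place_over (k := K) (some 0)
    refine ⟨⟨?_, Or.inr (Or.inl one_ne_zero), Or.inr (Or.inl one_ne_zero)⟩, ?_, ?_, ?_⟩
    · rcases hs with hs | hs
      · exact Or.inl ((h0 π hπ s₀ t₀).ne_zero hs)
      · exact Or.inr ((h0 π hπ s₁ t₁).ne_zero hs)
    · exact (rd_frm π g (h0 π hπ s₀ t₀) (h0 π hπ s₁ t₁)).ne_zero gs
    · show (1 : Om K) ^ 2 * 0 = 0 ^ 3 + _ * 0 * 0 ^ 2 + _ * 0 ^ 3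
      ring
    · show (1 : Om K) ^ 2 * 0 = 0 ^ 3 + _ * 0 * 0 ^ 2 + _ * 0 ^ 3
      ring
  · intro x hx
    exact absurd hx List.not_mem_nil
  · intro π hπ
    refine ⟨[⟨s₀, s₁, 0, 1, 0, 0, 1, 0⟩], [], ?_, List.Forall₂.nil, ?_⟩
    · exact List.Forall₂.cons (spX_mk hs gs (h0 π hπ _ _) (h0 π hπ _ _) (S3.oo π) (S3.oo π)) List.Forall₂.nil
    · simp only [List.map_cons, List.map_nil, List.sum_cons, List.sum_nil, add_zero, sub_zero]
  · intro π hπ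
    refine ⟨[⟨t₀, t₁, 0, 1, 0, 0, 1, 0⟩], [], ?_, List.Forall₂.nil, ?_⟩
    · exact List.Forall₂.cons (spX_mk ht gt (h1 π hπ _ _) (h1 π hπ _ _) (S3.oo π) (S3.oo π)) List.Forall₂.nil
    · simp only [List.map_cons, List.map_nil, List.sum_cons, List.sum_nil, add_zero, sub_zero]

end fib

end H90.QG
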