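import Pool.Agent.H90.QG.Def
import Pool.Agent.H71.K3.PlInf

/-! # QG.KKP : the torsion-free quotient of the Chow group of `X_g` and the key lemma (complete) -/

namespace H90.QG

open Polynomial H68.BB
open H71.K3 (OverPl place_over)

variable {K : Type} [Field K]

section cl
variable (g : MvPolynomial (Fin 2) K) (n n' : ℕ) (a b a' b' : MvPolynomial (Fin 2) K)

/-- zero-cycles with a positive multiple rationally equivalent to zero -/
noncomputable def Sat : AddSubgroup (Cy K) where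
  carrier := {z | ∃ N : ℕ, 0 < N ∧ N • z ∈ RatEq g n n' a b a' b'}
  zero_mem' := ⟨1, one_pos, by rw [smul_zero]; exact (RatEq g n n' a b a' b').zero_mem⟩
  add_mem' := by
    rintro z w ⟨N, hn, hz⟩ ⟨m, hm, hw⟩
    refine ⟨N * m, Nat.mul_pos hn hm, ?_⟩
    rw [smul_add]
    refine (RatEq g n n' a b a' b').add_mem ?_ ?_
    · rw [mul_comm, mul_smul]
      exact (RatEq g n n' a b a' b').nsmul_mem hz m
    · rw [mul_smul]
      exact (RatEq g n n' a b a' b').nsmul_mem hw N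
  neg_mem' := by
    rintro z ⟨N, hn, hz⟩
    exact ⟨N, hn, by rw [smul_neg]; exact (RatEq g n n' a b a' b').neg_mem hz⟩

/-- the Chow group of zero-cycles of `X` modulo torsion -/
abbrev Clq : Type := Cy K ⧸ Sat g n n' a b a' b'

/-- the class of a coordinate vector -/
noncomputable def kl (p : PX K) : Clq g n n' a b a' b' := QuotientAddGroup.mk (Finsupp.single p 1)

variable {g n n' a b a' b'}

theorem Clq.tf (N : ℕ) (v : Clq g n n' a b a' b') (hn : N ≠ 0) (hv : N • v = 0) : v = 0 := by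
  induction v using QuotientAddGroup.induction_on with
  | H z =>
    have h1 : (QuotientAddGroup.mk (N • z) : Clq g n n' a b a' b') = 0 := hv
    rw [QuotientAddGroup.eq_zero_iff] at h1 ⊢
    obtain ⟨m', hm, h2⟩ := h1
    refine ⟨m' * N, Nat.mul_pos hm (Nat.pos_of_ne_zero hn), ?_⟩
    rw [mul_smul]
    exact h2

theorem mk_cyc (M : Multiset (PX K)) :
    (QuotientAddGroup.mk (cyc M) : Clq g n n' a b a' b') = (M.map (kl g n n' a b a' b')).sum := by
  unfold cyc
  have h1 := map_multiset_sum (QuotientAddGroup.mk' (Sat g n n' a b a' b')) (M.map fun p => Finsupp.single p (1 : ℤ))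
  rw [Multiset.map_map] at h1
  exact h1

/-- the fibres of a 1-cycle have the same class -/
theorem kl_ratEq {M : Multiset (PX (Om K))} {π π' : Place K (Om K)} {q q' : Multiset (PX K)}
    (h1 : ∀ p ∈ M, OnX g a b a' b' p) (h2 : GalSt M) (h3 : Multiset.Rel (SpX g n n' π) M q)
    (h4 : Multiset.Rel (SpX g n n' π') M q') : (q.map (kl g n n' a b a' b')).sum = (q'.map (kl g n n' a b a' b')).sum := by
  rw [← mk_cyc, ← mk_cyc]
  have hz : cyc q - cyc q' ∈ Sat g n n' a b a' b' := by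
    refine ⟨1, one_pos, ?_⟩
    rw [one_smul]
    exact AddSubgroup.subset_closure ⟨M, π, π', q, q', h1, h2, h3, h4, rfl⟩
  have h5 : (QuotientAddGroup.mk (cyc q - cyc q') : Clq g n n' a b a' b') = 0 := by
    rw [QuotientAddGroup.eq_zero_iff]
    exact hz
  rw [QuotientAddGroup.mk_sub] at h5
  exact sub_eq_zero.1 h5

end cl

/-- the conjugate of a place -/
noncomputable def cnj (σ : Om K ≃ₐ[RatFunc K] Om K) (π : Place K (Om K)) : Place K (Om K) where
  V := π.V.comap ((σ : Om K ≃+* Om K) : Om K →+* Om K)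
  φ := π.φ.comp ((((σ : Om K ≃+* Om K) : Om K →+* Om K).comp
    (π.V.comap ((σ : Om K ≃+* Om K) : Om K →+* Om K)).subtype).codRestrict π.V.toSubring (fun x => x.2))
  const := fun c => by
    obtain ⟨h1, h2⟩ := π.const c
    have hc : σ (algebraMap K (Om K) c) = algebraMap K (Om K) c := by
      rw [IsScalarTower.algebraMap_apply K (RatFunc K) (Om K)]
      exact σ.commutes _
    have h3 : algebraMap K (Om K) c ∈ π.V.comap ((σ : Om K ≃+* Om K) : Om K →+* Om K) := by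
      rw [ValuationSubring.mem_comap]
      change σ (algebraMap K (Om K) c) ∈ π.V
      rw [hc]
      exact h1
    refine ⟨h3, ?_⟩
    change π.φ ⟨σ (algebraMap K (Om K) c), _⟩ = c
    have h4 : (⟨σ (algebraMap K (Om K) c), h3⟩ : π.V) = ⟨algebraMap K (Om K) c, h1⟩ := Subtype.ext hc
    rw [h4, h2]

theorem cnj_rd {σ : Om K ≃ₐ[RatFunc K] Om K} {π : Place K (Om K)} {z : Om K} {c : K}
    (h : Rd (cnj σ π).V (cnj σ π).φ z c) : Rd π.V π.φ (σ z) c := by
  obtain ⟨h1, h2⟩ := h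
  exact ⟨h1, h2⟩

theorem cnj_rd' {σ : Om K ≃ₐ[RatFunc K] Om K} {π : Place K (Om K)} {z : Om K} {c : K}
    (h : Rd π.V π.φ (σ z) c) : Rd (cnj σ π).V (cnj σ π).φ z c := by
  obtain ⟨h1, h2⟩ := h
  exact ⟨h1, h2⟩

theorem sg_tt (σ : Om K ≃ₐ[RatFunc K] Om K) : σ (tt K) = tt K := σ.commutes _

theorem cnj_over (σ : Om K ≃ₐ[RatFunc K] Om K) (π : Place K (Om K)) (u : Option K)
    (h : OverPl π u) : OverPl (cnj σ π) u := by
  cases u with
  | some c =>
    refine cnj_rd' (σ := σ) (π := π) ?_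
    rw [sg_tt]
    exact h
  | none =>
    intro h1
    have h2 : σ (tt K) ∈ π.V := h1
    rw [sg_tt] at h2
    exact h h2

/-- a point moved by an automorphism -/
noncomputable def ac (σ : Om K ≃ₐ[RatFunc K] Om K) (p : PX (Om K)) : PX (Om K) := p.map σ

theorem spX_ac {g : MvPolynomial (Fin 2) K} {n n' : ℕ} {σ : Om K ≃ₐ[RatFunc K] Om K} {π : Place K (Om K)} {p : PX (Om K)} {q : PX K}
    (h : SpX g n n' (cnj σ π) p q) : SpX g n n' π (ac σ p) q := by
  obtain ⟨h1, hg, l, μ, ν, hl, hμ, hν, a0, a1, a2, a3, a4, a5, a6, a7⟩ := h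
  refine ⟨h1, hg, σ l, σ μ, σ ν, (map_ne_zero σ).2 hl, (map_ne_zero σ).2 hμ, (map_ne_zero σ).2 hν, ?_, ?_, ?_, ?_, ?_, ?_, ?_, ?_⟩
  · have := cnj_rd a0; rwa [map_mul] at this
  · have := cnj_rd a1; rwa [map_mul] at this
  · have := cnj_rd a2; rwa [map_mul, map_mul, map_pow] at this
  · have := cnj_rd a3; rwa [map_mul, map_mul, map_pow] at this
  · have := cnj_rd a4; rwa [map_mul] at this
  · have := cnj_rd a5; rwa [map_mul, map_mul, map_pow] at this
  · have := cnj_rd a6; rwa [map_mul, map_mul, map_pow] at this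
  · have := cnj_rd a7; rwa [map_mul] at this

theorem sg_cst (σ : Om K ≃ₐ[RatFunc K] Om K) (c : K) : σ (algebraMap K (Om K) c) = algebraMap K (Om K) c := by
  rw [IsScalarTower.algebraMap_apply K (RatFunc K) (Om K)]
  exact σ.commutes _

theorem frm_sg (σ : Om K ≃ₐ[RatFunc K] Om K) (p : MvPolynomial (Fin 2) K) (s₀ s₁ : Om K) :
    frm p (σ s₀) (σ s₁) = σ (frm p s₀ s₁) := by
  unfold frm
  induction p using MvPolynomial.induction_on with
  | C a => rw [MvPolynomial.aeval_C, MvPolynomial.aeval_C]; exact (sg_cst σ a).symm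
  | add p q hp hq => rw [map_add, map_add, map_add, hp, hq]
  | mul_X p i hp =>
    rw [map_mul, map_mul, map_mul, hp, MvPolynomial.aeval_X, MvPolynomial.aeval_X]
    congr 1
    fin_cases i <;> rfl

theorem on_ac {g a b a' b' : MvPolynomial (Fin 2) K} {σ : Om K ≃ₐ[RatFunc K] Om K} {p : PX (Om K)}
    (hp : OnX g a b a' b' p) : OnX g a b a' b' (ac σ p) := by
  obtain ⟨h1, hg, h2, h3⟩ := hp
  have e0 : ∀ z : Om K, σ z ≠ 0 ↔ z ≠ 0 := fun z => map_ne_zero σ
  refine ⟨?_, ?_, ?_, ?_⟩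
  · unfold PX.NZ at h1 ⊢
    simp only [ac, PX.map, e0]
    exact h1
  · change frm g (σ p.s₀) (σ p.s₁) ≠ 0
    rw [frm_sg, e0]
    exact hg
  · change (σ p.Y) ^ 2 * σ p.Z = (σ p.X) ^ 3 + frm a (σ p.s₀) (σ p.s₁) * σ p.X * (σ p.Z) ^ 2 +
      frm b (σ p.s₀) (σ p.s₁) * (σ p.Z) ^ 3
    rw [frm_sg, frm_sg, ← map_pow, ← map_mul, h2]
    simp only [map_add, map_mul, map_pow]
  · change (σ p.V) ^ 2 * σ p.R = (σ p.U) ^ 3 + frm a' (σ p.s₀) (σ p.s₁) * σ p.U * (σ p.R) ^ 2 +
      frm b' (σ p.s₀) (σ p.s₁) * (σ p.R) ^ 3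
    rw [frm_sg, frm_sg, ← map_pow, ← map_mul, h3]
    simp only [map_add, map_mul, map_pow]

private theorem orb_fin (z : Om K) : (Set.range fun σ : Om K ≃ₐ[RatFunc K] Om K => σ z).Finite := by
  classical
  refine ((minpoly (RatFunc K) z).aroots (Om K)).toFinset.finite_toSet.subset ?_
  rintro _ ⟨σ, rfl⟩
  have hint : IsIntegral (RatFunc K) z := (Algebra.IsAlgebraic.isAlgebraic z).isIntegral
  simp only [Finset.mem_coe, Multiset.mem_toFinset]
  rw [mem_aroots]
  refine ⟨minpoly.ne_zero hint, ?_⟩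
  have h1 := aeval_algHom_apply (σ : Om K →ₐ[RatFunc K] Om K) z (minpoly (RatFunc K) z)
  rw [minpoly.aeval, map_zero] at h1
  exact h1

private theorem ac_fin (p : PX (Om K)) :
    (Set.range fun σ : Om K ≃ₐ[RatFunc K] Om K => ac σ p).Finite := by
  let f : PX (Om K) → Om K × Om K × Om K × Om K × Om K × Om K × Om K × Om K :=
    fun q => (q.s₀, q.s₁, q.X, q.Y, q.Z, q.U, q.V, q.R)
  have hf : Function.Injective f := by
    rintro P P' h
    simp only [f, Prod.mk.injEq] at h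
    obtain ⟨h1, h2, h3, h4, h5, h6, h7, h8⟩ := h
    exact PX.ext h1 h2 h3 h4 h5 h6 h7 h8
  refine Set.Finite.of_finite_image (f := f) ?_ hf.injOn
  refine ((orb_fin p.s₀).prod ((orb_fin p.s₁).prod ((orb_fin p.X).prod ((orb_fin p.Y).prod
    ((orb_fin p.Z).prod ((orb_fin p.U).prod ((orb_fin p.V).prod (orb_fin p.R)))))))).subset ?_
  rintro _ ⟨_, ⟨σ, rfl⟩, rfl⟩
  exact ⟨⟨σ, rfl⟩, ⟨σ, rfl⟩, ⟨σ, rfl⟩, ⟨σ, rfl⟩, ⟨σ, rfl⟩, ⟨σ, rfl⟩, ⟨σ, rfl⟩, ⟨σ, rfl⟩⟩

private theorem list_fin (L : List (PX (Om K))) :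
    (Set.range fun σ : Om K ≃ₐ[RatFunc K] Om K => L.map (ac σ)).Finite := by
  induction L with
  | nil =>
    refine (Set.finite_singleton []).subset ?_
    rintro _ ⟨σ, rfl⟩
    rfl
  | cons p L ih =>
    refine (Set.Finite.image2 List.cons (ac_fin p) ih).subset ?_
    rintro _ ⟨σ, rfl⟩
    exact ⟨ac σ p, ⟨σ, rfl⟩, L.map (ac σ), ⟨σ, rfl⟩, rfl⟩

private theorem map_ac_mul (σ τ : Om K ≃ₐ[RatFunc K] Om K) (L : List (PX (Om K))) :
    (L.map (ac τ)).map (ac σ) = L.map (ac (σ * τ)) := by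
  rw [List.map_map]
  rfl

private theorem map_ac_one (L : List (PX (Om K))) : L.map (ac 1) = L := by
  have h1 : (ac (1 : Om K ≃ₐ[RatFunc K] Om K) : PX (Om K) → PX (Om K)) = id := rfl
  rw [h1, List.map_id]

private theorem rel_sum {ι X Y : Type} [DecidableEq ι] (r : X → Y → Prop) (O : Finset ι) (f : ι → Multiset X)
    (g : ι → Multiset Y) (hfg : ∀ i ∈ O, Multiset.Rel r (f i) (g i)) :
    Multiset.Rel r (∑ i ∈ O, f i) (∑ i ∈ O, g i) := by
  induction O using Finset.induction_on with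
  | empty => exact Multiset.Rel.zero
  | insert a s ha ih =>
    rw [Finset.sum_insert ha, Finset.sum_insert ha]
    exact (hfg a (Finset.mem_insert_self a s)).add (ih fun i hi => hfg i (Finset.mem_insert_of_mem hi))

private theorem map_sumF {ι X Y : Type} (F : X → Y) (O : Finset ι) (f : ι → Multiset X) :
    (∑ i ∈ O, f i).map F = ∑ i ∈ O, (f i).map F :=
  map_sum (Multiset.mapAddMonoidHom F) f O

theorem rel_of_forall₂ {X Y : Type} {r : X → Y → Prop} {l : List X} {l' : List Y} (h : List.Forall₂ r l l') :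
    Multiset.Rel r (l : Multiset X) (l' : Multiset Y) := by
  induction h with
  | nil => exact Multiset.Rel.zero
  | cons h1 _ ih =>
    rw [← Multiset.cons_coe, ← Multiset.cons_coe]
    exact Multiset.Rel.cons h1 ih

variable [IsAlgClosed K] {n n' : ℕ} {g a b a' b' : MvPolynomial (Fin 2) K}

/-- THE KEY LEMMA for the difference of two lists of pairs over `Ω` which are not assumed to be stable under automorphisms -/
theorem kkP (L L' : List (PX (Om K))) (hL : ∀ p ∈ L, OnX g a b a' b' p)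
    (hL' : ∀ p ∈ L', OnX g a b a' b' p) (u u' : Option K) (v v' : Clq g n n' a b a' b')
    (h1 : ∀ π : Place K (Om K), OverPl π u → ∃ q q' : List (PX K), List.Forall₂ (SpX g n n' π) L q ∧
      List.Forall₂ (SpX g n n' π) L' q' ∧ (q.map (kl g n n' a b a' b')).sum - (q'.map (kl g n n' a b a' b')).sum = v)
    (h2 : ∀ π : Place K (Om K), OverPl π u' → ∃ q q' : List (PX K), List.Forall₂ (SpX g n n' π) L q ∧
      List.Forall₂ (SpX g n n' π) L' q' ∧ (q.map (kl g n n' a b a' b')).sum - (q'.map (kl g n n' a b a' b')).sum = v') : v = v' := by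
  classical
  obtain ⟨π, hπ⟩ := place_over (k := K) u
  obtain ⟨π', hπ'⟩ := place_over (k := K) u'
  have hfin : (Set.range fun σ : Om K ≃ₐ[RatFunc K] Om K => (L.map (ac σ), L'.map (ac σ))).Finite := by
    refine ((list_fin L).prod (list_fin L')).subset ?_
    rintro _ ⟨σ, rfl⟩
    exact ⟨⟨σ, rfl⟩, ⟨σ, rfl⟩⟩
  let O : Finset (List (PX (Om K)) × List (PX (Om K))) := hfin.toFinset
  have hO : ∀ X, X ∈ O ↔ ∃ σ : Om K ≃ₐ[RatFunc K] Om K, (L.map (ac σ), L'.map (ac σ)) = X := by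
    intro X
    rw [Set.Finite.mem_toFinset, Set.mem_range]
  have hstab : ∀ (pr : List (PX (Om K)) × List (PX (Om K)) → List (PX (Om K)))
      (_ : ∀ (τ : Om K ≃ₐ[RatFunc K] Om K) X, (pr X).map (ac τ) = pr (X.1.map (ac τ), X.2.map (ac τ))),
      GalSt (∑ X ∈ O, (pr X : Multiset (PX (Om K)))) := by
    intro pr hpr τ
    change (∑ X ∈ O, (pr X : Multiset (PX (Om K)))).map (ac τ) = _
    rw [map_sumF]
    refine Finset.sum_nbij' (fun X => (X.1.map (ac τ), X.2.map (ac τ)))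
      (fun X => (X.1.map (ac τ⁻¹), X.2.map (ac τ⁻¹))) ?_ ?_ ?_ ?_ ?_
    · intro X hX
      obtain ⟨σ, rfl⟩ := (hO X).mp hX
      exact (hO _).mpr ⟨τ * σ, by rw [map_ac_mul, map_ac_mul]⟩
    · intro X hX
      obtain ⟨σ, rfl⟩ := (hO X).mp hX
      exact (hO _).mpr ⟨τ⁻¹ * σ, by rw [map_ac_mul, map_ac_mul]⟩
    · intro X _
      refine Prod.ext ?_ ?_
      · show (X.1.map (ac τ)).map (ac τ⁻¹) = X.1
        rw [map_ac_mul, inv_mul_cancel, map_ac_one]
      · show (X.2.map (ac τ)).map (ac τ⁻¹) = X.2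
        rw [map_ac_mul, inv_mul_cancel, map_ac_one]
    · intro X _
      refine Prod.ext ?_ ?_
      · show (X.1.map (ac τ⁻¹)).map (ac τ) = X.1
        rw [map_ac_mul, mul_inv_cancel, map_ac_one]
      · show (X.2.map (ac τ⁻¹)).map (ac τ) = X.2
        rw [map_ac_mul, mul_inv_cancel, map_ac_one]
    · intro X _
      rw [Multiset.map_coe, hpr]
  have hon : ∀ (pr : List (PX (Om K)) × List (PX (Om K)) → List (PX (Om K)))
      (_ : ∀ X ∈ O, ∀ p ∈ pr X, OnX g a b a' b' p),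
      ∀ p ∈ ∑ X ∈ O, (pr X : Multiset (PX (Om K))), OnX g a b a' b' p := by
    intro pr hpr p hp
    rw [Multiset.mem_sum] at hp
    obtain ⟨X, hX, hpX⟩ := hp
    exact hpr X hX p hpX
  have key : ∀ (w : Option K) (v : Clq g n n' a b a' b') (_ : ∀ π : Place K (Om K), OverPl π w →
      ∃ q q' : List (PX K), List.Forall₂ (SpX g n n' π) L q ∧
      List.Forall₂ (SpX g n n' π) L' q' ∧ (q.map (kl g n n' a b a' b')).sum - (q'.map (kl g n n' a b a' b')).sum = v)
      (ϖ : Place K (Om K)) (_ : OverPl ϖ w), ∃ Q Q' : Multiset (PX K),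
      Multiset.Rel (SpX g n n' ϖ) (∑ X ∈ O, (X.1 : Multiset (PX (Om K)))) Q ∧
      Multiset.Rel (SpX g n n' ϖ) (∑ X ∈ O, (X.2 : Multiset (PX (Om K)))) Q' ∧
      (Q.map (kl g n n' a b a' b')).sum - (Q'.map (kl g n n' a b a' b')).sum = O.card • v := by
    intro w v hv ϖ hϖ
    have hX : ∀ X ∈ O, ∃ q : List (PX K) × List (PX K), List.Forall₂ (SpX g n n' ϖ) X.1 q.1 ∧
        List.Forall₂ (SpX g n n' ϖ) X.2 q.2 ∧ (q.1.map (kl g n n' a b a' b')).sum - (q.2.map (kl g n n' a b a' b')).sum = v := by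
      intro X hX
      obtain ⟨σ, rfl⟩ := (hO X).mp hX
      obtain ⟨q, q', e1, e2, e3⟩ := hv (cnj σ ϖ) (cnj_over σ ϖ w hϖ)
      refine ⟨(q, q'), ?_, ?_, e3⟩
      · rw [List.forall₂_map_left_iff]
        exact e1.imp fun _ _ => spX_ac
      · rw [List.forall₂_map_left_iff]
        exact e2.imp fun _ _ => spX_ac
    choose! q hq1 hq2 hq3 using hX
    refine ⟨∑ X ∈ O, ((q X).1 : Multiset (PX K)), ∑ X ∈ O, ((q X).2 : Multiset (PX K)), ?_, ?_, ?_⟩
    · exact rel_sum _ O _ _ fun X hX => rel_of_forall₂ (hq1 X hX)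
    · exact rel_sum _ O _ _ fun X hX => rel_of_forall₂ (hq2 X hX)
    · rw [map_sumF, map_sumF, Multiset.sum_sum, Multiset.sum_sum, ← Finset.sum_sub_distrib, ← Finset.sum_const]
      refine Finset.sum_congr rfl fun X hX => ?_
      rw [Multiset.map_coe, Multiset.map_coe, Multiset.sum_coe, Multiset.sum_coe]
      exact hq3 X hX
  obtain ⟨Q, Q', a1, a2, a3⟩ := key u v h1 π hπ
  obtain ⟨R, R', b1, b2, b3⟩ := key u' v' h2 π' hπ'
  have hmem1 : ∀ X ∈ O, ∀ p ∈ X.1, OnX g a b a' b' p := by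
    intro X hX p hp
    obtain ⟨σ, rfl⟩ := (hO X).mp hX
    obtain ⟨q, hq, rfl⟩ := List.mem_map.1 hp
    exact on_ac (hL q hq)
  have hmem2 : ∀ X ∈ O, ∀ p ∈ X.2, OnX g a b a' b' p := by
    intro X hX p hp
    obtain ⟨σ, rfl⟩ := (hO X).mp hX
    obtain ⟨q, hq, rfl⟩ := List.mem_map.1 hp
    exact on_ac (hL' q hq)
  have c1 := kl_ratEq (hon (fun X => X.1) hmem1) (hstab (fun X => X.1) (fun _ _ => rfl)) a1 b1
  have c2 := kl_ratEq (hon (fun X => X.2) hmem2) (hstab (fun X => X.2) (fun _ _ => rfl)) a2 b2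
  have hcard : O.card ≠ 0 := by
    have h3 : (L, L') ∈ O := (hO _).mpr ⟨1, by rw [map_ac_one, map_ac_one]⟩
    exact Finset.card_ne_zero_of_mem h3
  have h4 : O.card • (v - v') = 0 := by
    rw [nsmul_sub, ← a3, ← b3, c1, c2, sub_self]
  exact sub_eq_zero.1 (Clq.tf _ _ hcard h4)

end H90.QG
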