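import Pool.Agent.H90.QG.RoitA

/-! # QG.RoitB : a line on the Fano variety that meets a singular fibre (complete) -/

namespace H90.QG

open Polynomial H68.BB
open H90.QE (FF FF_map)
open H90.QF

variable {k : Type} [Field k] [IsAlgClosed k] [C23 k] {a b a' b' q A B E : k[X]} {G : Type} [AddCommGroup G]
  (Φ : Fn (FL a b) (FL a' b') G)

theorem roit_b {g : k[X]} (hkk : KG Φ g) (hd : Dat a b a' b' q A B E) {σ₀ x₀ y₀ T₀ : k} (hw : Good (mkw a b a' b' q σ₀ x₀ y₀ T₀)) {u : k}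
    (hu : aeval u E = 0) (hgu : aeval u g ≠ 0) (hgσ : aeval σ₀ g ≠ 0) {a1 : k} {x y T : k[X]} (hx0 : x.eval 0 = x₀) (hy0 : y.eval 0 = y₀) (hT0 : T.eval 0 = T₀)
    (hF : FF A B E (C σ₀ + C a1 * X) x y T = 0) (ha : a1 ≠ 0) : CC Φ (mkw a b a' b' q σ₀ x₀ y₀ T₀) = 0 := by
  set ql : k[X] := C σ₀ + C a1 * X with hql
  have hFΩ : FF A B E (aeval (tt k) ql) (aeval (tt k) x) (aeval (tt k) y) (aeval (tt k) T) = 0 := by
    have h := FF_map (aeval (tt k) : k[X] →ₐ[k] Om k) A B E ql x y T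
    rw [hF, map_zero] at h
    exact h.symm
  have he : ∀ (c d r : k), aeval r (C c + C d * X : k[X]) = c + d * r := by
    intro c d r
    simp
  have hRd : ∀ π : Place k (Om k), OverPl π (some 0) →
      RdF π (aeval (tt k) ql) (aeval (tt k) x) (aeval (tt k) y) (aeval (tt k) T) σ₀ x₀ y₀ T₀ := by
    intro π hπ
    have h0 : Rd π.V π.φ (tt k) 0 := hπ
    refine ⟨?_, ?_, ?_, ?_⟩
    · have h := rd_aeval π h0 ql
      rw [hql, he, mul_zero, add_zero] at h
      exact h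
    · have h := rd_aeval π h0 x
      rw [← hx0]
      rwa [coe_aeval_eq_eval] at h
    · have h := rd_aeval π h0 y
      rw [← hy0]
      rwa [coe_aeval_eq_eval] at h
    · have h := rd_aeval π h0 T
      rw [← hT0]
      rwa [coe_aeval_eq_eval] at h
  obtain ⟨π₀, hπ₀⟩ := place_over (some (0 : k))
  obtain ⟨P, Q, hts, hL0, hL1, hL2⟩ := packG Φ hd hw hFΩ (hRd π₀ hπ₀)
  set r₀ : k := (u - σ₀) / a1 with hr₀
  have hu1 : ∀ π : Place k (Om k), OverPl π (some r₀) → Rd π.V π.φ (aeval (tt k) ql) u := by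
    intro π hπ
    have h0 : Rd π.V π.φ (tt k) r₀ := hπ
    have h1 := rd_aeval π h0 ql
    rw [hql, he] at h1
    have e : σ₀ + a1 * r₀ = u := by
      rw [hr₀]
      field_simp
      ring
    rw [e] at h1
    exact h1
  refine hkk [(P, Q)] (some 0) (some r₀) _ _ ?_ ?_ ?_ ?_ ?_
  · intro p hp
    rw [List.mem_singleton] at hp
    rw [hp]
    exact hts
  · intro π hπ p hp
    rw [List.mem_singleton] at hp
    rw [hp]
    refine ⟨σ₀, hgσ, ?_⟩
    show Rd π.V π.φ (P.t X) σ₀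
    rw [hL0]
    exact (hRd π hπ).s
  · intro π hπ p hp
    rw [List.mem_singleton] at hp
    rw [hp]
    refine ⟨u, hgu, ?_⟩
    show Rd π.V π.φ (P.t X) u
    rw [hL0]
    exact hu1 π hπ
  · intro π hπ
    rw [List.map_singleton, List.sum_singleton]
    exact hL1 π (hRd π hπ)
  · intro π hπ
    rw [List.map_singleton, List.sum_singleton]
    exact hL2 π u hu (hu1 π hπ)

end H90.QG
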