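import Pool.Agent.H90.QG.RoitA
import Pool.Agent.H90.QG.RoitB
import Pool.Agent.H90.QF.RoitC
import Pool.Agent.H90.QF.GoodPair
import Pool.Agent.H90.QF.Ext
import Pool.Agent.H90.QF.Addit

/-! # QG.Main : the class of a pair of points over the same base point is zero (complete) -/

namespace H90.QG

open Polynomial H68.BB
open H90.QE (FF curve_exists)
open H90.QF

variable {k : Type} [Field k] [IsAlgClosed k] [C23 k] {a b a' b' q A B E : k[X]} {G : Type} [AddCommGroup G]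
  (Φ : Fn (FL a b) (FL a' b') G)

theorem CC_mkw {g : k[X]} (hkk : KG Φ g) (hd : Dat a b a' b' q A B E) {u : k} (hu : aeval u E = 0) (hgu : aeval u g ≠ 0)
    {σ₀ x₀ y₀ T₀ : k} (hgσ : aeval σ₀ g ≠ 0) (hw : GG (mkw a b a' b' q σ₀ x₀ y₀ T₀)) : CC Φ (mkw a b a' b' q σ₀ x₀ y₀ T₀) = 0 := by
  have hq : aeval σ₀ q ≠ 0 := q_ne hd hw.g.dt hw.g.ds
  obtain ⟨a1, c', x, y, T, hx, hy, hT, hx0, hy0, hT0, hne, hF⟩ := curve_exists hd.dA hd.dB hd.dE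
    (FF_of_onW hd hw.g.on hq)
  by_cases hc : c' = 0
  · rw [hc, C_0, zero_mul] at hF
    by_cases h1 : a1 = 0
    · exfalso
      rw [h1, C_0, zero_mul, add_zero] at hF
      obtain ⟨e1, e2, e3⟩ := roit_c hd hw hx0 hy0 hT0 hF
      exact hne ⟨h1, e1, e2, e3⟩
    · exact roit_b Φ hkk hd hw.g hu hgu hgσ hx0 hy0 hT0 hF h1
  · exact roit_a Φ hkk hd hw.g hu hgu hgσ hx hy hT hx0 hy0 hT0 hF hc

theorem CC_zero {g : k[X]} (hkk : KG Φ g) (hd : Dat a b a' b' q A B E) {u : k} (hu : aeval u E = 0) (hgu : aeval u g ≠ 0)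
    {w : Wp (FL a b) (FL a' b') k} (hts : w.t = w.s) (hgw : aeval (w.t X) g ≠ 0) (hw : GG w) : CC Φ w = 0 := by
  have hq : aeval (w.t X) q ≠ 0 := by
    refine q_ne hd (a := a) (b := b) (a' := a') (b' := b') ?_ ?_
    · have h1 := hw.g.dt
      rw [t_X w.t] at h1
      exact h1
    · have h1 := hw.g.ds
      rw [← hts, t_X w.t] at h1
      exact h1
  have h2 := mkw_surj w hts hq
  rw [h2] at hw ⊢
  exact CC_mkw Φ hkk hd hu hgu hgw hw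

theorem main_all {g : k[X]} (hkk : KG Φ g) (hd : Dat a b a' b' q A B E) {u : k} (hu : aeval u E = 0) (hgu : aeval u g ≠ 0)
    (P : Pt (FL a b) k) (Q : Pt (FL a' b') k) (hts : P.t = Q.t) (hgP : aeval (P.t X) g ≠ 0) : Φ.cl P Q = 0 := by
  by_cases hP : P.t (FL a b).dl = 0
  · exact cl_nodal_fst Φ P Q hP
  by_cases hQ : Q.t (FL a' b').dl = 0
  · exact cl_nodal_snd Φ P Q hQ
  have hgp : ∀ (P' : Pt (FL a b) k) (Q' : Pt (FL a' b') k), P'.t = Q'.t → P'.t = P.t → GP P' Q' → Φ.cl P' Q' = 0 := by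
    rintro P' Q' h1 h2 ⟨-, w, θ, hw, hO⟩
    rw [← CC_eq Φ hw.g hO]
    exact CC_zero Φ hkk hd hu hgu (by rw [← hO.t, ← hO.s]; exact h1) (by rw [← hO.t, h2]; exact hgP) hw
  obtain ⟨w, θ, P₀, Q₀, ht, hs, hw, hO, hy⟩ := good_pair hP hQ
  have h0 : GP P₀ Q₀ := ⟨hy, w, θ, hw, hO⟩
  have hPt : P₀.t = P.t := hO.t.trans ht
  have hQt : Q₀.t = Q.t := hO.s.trans hs
  obtain ⟨B', hB'⟩ := h0.spread
  have h1 : ∀ Q' : Pt (FL a' b') k, Q'.t = Q.t → Q'.x ∉ B' → Φ.cl P Q' = 0 := by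
    intro Q' hQ' hx
    have h2 : GP P₀ Q' := hB' Q' (hQ'.trans hQt.symm) hx
    obtain ⟨B'', hB''⟩ := h2.symm.spread
    obtain ⟨U, V, hU, hV, hUx, hVx, e1⟩ := addit_fst Φ P hP B''
    have h3 : GP Q' U := hB'' U (by rw [hU, hPt]) hUx
    have h4 : GP Q' V := hB'' V (by rw [hV, hPt]) hVx
    rw [e1, hgp _ _ (by rw [hU, hQ', hts]) hU h3.symm, hgp _ _ (by rw [hV, hQ', hts]) hV h4.symm, add_zero]
  obtain ⟨U, V, hU, hV, hUx, hVx, e1⟩ := addit_snd Φ Q hQ B'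
  rw [e1, h1 U hU hUx, h1 V hV hVx, add_zero]

end H90.QG
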