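import Pool.Agent.H90.QF.Pack

/-! # QG.Pack : the pair over a point of the Fano variety, and the property of the functional on an open part of the line (complete) -/

namespace H90.QG

open Polynomial H68.BB
open H90.QE (FF)
open H90.QF

variable {k : Type} [Field k] [IsAlgClosed k] [C23 k] {a b a' b' q A B E : k[X]} {G : Type} [AddCommGroup G]
  (Φ : Fn (FL a b) (FL a' b') G)

theorem packG (hd : Dat a b a' b' q A B E) {σ₀ x₀ y₀ T₀ : k} (hw : Good (mkw a b a' b' q σ₀ x₀ y₀ T₀)) {σ x y T : Om k}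
    (hF : FF A B E σ x y T = 0) {π₀ : Place k (Om k)} (h₀ : RdF π₀ σ x y T σ₀ x₀ y₀ T₀) :
    ∃ (P : Pt (FL a b) (Om k)) (Q : Pt (FL a' b') (Om k)), P.t = Q.t ∧ P.t X = σ ∧
      (∀ π : Place k (Om k), RdF π σ x y T σ₀ x₀ y₀ T₀ → Φ.spv π (P, Q) = CC Φ (mkw a b a' b' q σ₀ x₀ y₀ T₀)) ∧
      (∀ (π : Place k (Om k)) (u : k), aeval u E = 0 → Rd π.V π.φ σ u → Φ.spv π (P, Q) = 0) := by
  have hon : OnW (mkw a b a' b' q σ x y T) := onW_mkw hd hF
  have hgood : Good (mkw a b a' b' q σ x y T) := good_of_rd h₀.w hw hon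
  obtain ⟨θ, P, Q, hO⟩ := hgood.ex
  have hPt : P.t = aeval σ := hO.t
  have hQt : Q.t = aeval σ := hO.s
  refine ⟨P, Q, ?_, ?_, ?_, ?_⟩
  · rw [hPt, hQt]
  · rw [hPt]
    exact aeval_X σ
  · intro π hπ
    exact spec_CC Φ hπ.w hw hO
  · intro π u hu h1
    have h2 := hd.evE u
    rw [hu, mul_zero] at h2
    rcases mul_eq_zero.1 h2 with h3 | h3
    · refine spv_dead Φ π P Q (u := aeval u (FL a b).dl) ?_ h3
      rw [hPt]
      exact rd_aeval π h1 _
    · have h4 := spv_dead Φ.swp π Q P (u := aeval u (FL a' b').dl) (by rw [hQt]; exact rd_aeval π h1 _) h3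
      rcases Φ.spv_cases π P Q with ⟨P₀, Q₀, e1, e2, e3⟩ | e3
      · rw [e3]
        have h5 := Φ.swp.spv_rd e2 e1
        rw [h4] at h5
        exact h5.symm
      · exact e3

/-- the property of the functional for lists of pairs over equal base points whose limits lie in the open set `g ≠ 0` -/
def KG (g : k[X]) : Prop := ∀ (L : List (PP (FL a b) (FL a' b') (Om k))) (u u' : Option k) (v v' : G),
    (∀ p ∈ L, p.1.t = p.2.t) →
    (∀ π : Place k (Om k), OverPl π u → ∀ p ∈ L, ∃ c : k, aeval c g ≠ 0 ∧ Rd π.V π.φ (p.1.t X) c) →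
    (∀ π : Place k (Om k), OverPl π u' → ∀ p ∈ L, ∃ c : k, aeval c g ≠ 0 ∧ Rd π.V π.φ (p.1.t X) c) →
    (∀ π : Place k (Om k), OverPl π u → (L.map (Φ.spv π)).sum = v) →
    (∀ π : Place k (Om k), OverPl π u' → (L.map (Φ.spv π)).sum = v') → v = v'

end H90.QG
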