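import Pool.Agent.H90.QG.Emb
import Pool.Agent.H90.QG.Main

/-! # QG.Prj : the functional of a chart (complete) -/

namespace H90.QG

open Polynomial H68.BB
open H71.K3 (OverPl place_over)
open H90.QF

section uu
variable {K : Type} [Field K] {n n' : ℕ} {g a b a' b' : MvPolynomial (Fin 2) K}

variable (g n n' a b a' b') in
/-- the class of `([P] - [O]) × ([Q] - [O])` -/
noncomputable def uu (p : PX K) : Clq g n n' a b a' b' :=
  kl g n n' a b a' b' p + kl g n n' a b a' b' p.oo - (kl g n n' a b a' b' p.o2 + kl g n n' a b a' b' p.o1)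

theorem uu_o1 (p : PX K) : uu n n' g a b a' b' p.o1 = 0 := by
  unfold uu
  have e1 : p.o1.oo = p.oo := rfl
  have e2 : p.o1.o2 = p.oo := rfl
  have e3 : p.o1.o1 = p.o1 := rfl
  rw [e1, e2, e3]
  abel

theorem uu_o2 (p : PX K) : uu n n' g a b a' b' p.o2 = 0 := by
  unfold uu
  have e1 : p.o2.oo = p.oo := rfl
  have e2 : p.o2.o2 = p.o2 := rfl
  have e3 : p.o2.o1 = p.oo := rfl
  rw [e1, e2, e3]
  abel

theorem build (π : Place K (Om K)) {Y : Type} (f f' : Y → List (PX (Om K))) (h : Y → Clq g n n' a b a' b') (L : List Y)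
    (H : ∀ p ∈ L, ∃ q q' : List (PX K), List.Forall₂ (SpX g n n' π) (f p) q ∧ List.Forall₂ (SpX g n n' π) (f' p) q' ∧
      (q.map (kl g n n' a b a' b')).sum - (q'.map (kl g n n' a b a' b')).sum = h p) :
    ∃ q q' : List (PX K), List.Forall₂ (SpX g n n' π) (L.flatMap f) q ∧ List.Forall₂ (SpX g n n' π) (L.flatMap f') q' ∧
      (q.map (kl g n n' a b a' b')).sum - (q'.map (kl g n n' a b a' b')).sum = (L.map h).sum := by
  induction L with
  | nil => exact ⟨[], [], List.Forall₂.nil, List.Forall₂.nil, by simp⟩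
  | cons p L ih =>
    obtain ⟨q, q', h1, h2, h3⟩ := ih fun p hp => H p (List.mem_cons_of_mem _ hp)
    obtain ⟨c, c', e1, e2, e3⟩ := H p List.mem_cons_self
    refine ⟨c ++ q, c' ++ q', ?_, ?_, ?_⟩
    · rw [List.flatMap_cons]
      exact List.rel_append e1 h1
    · rw [List.flatMap_cons]
      exact List.rel_append e2 h2
    · rw [List.map_append, List.map_append, List.sum_append, List.sum_append, List.map_cons, List.sum_cons, ← e3, ← h3]
      abel

end uu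

section fn
variable {K : Type} [Field K] [IsAlgClosed K] {n n' : ℕ} {a₀ a₁ r₀ r₁ : K} {g a b a' b' : MvPolynomial (Fin 2) K}

open Classical in
variable (g n n') in
/-- the class of a pair of points of a chart, zero if the base points are different or not in the open part -/
noncomputable def clX (P : Pt (FC a₀ a₁ r₀ r₁ a b) K) (Q : Pt (FC a₀ a₁ r₀ r₁ a' b') K) : Clq g n n' a b a' b' :=
  if P.t = Q.t ∧ aeval (P.t X) (ln a₀ a₁ r₀ r₁ g) ≠ 0 then uu n n' g a b a' b' (em P Q) else 0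

/-- the specialisation of one pair over the same integral base point -/
theorem sp_one (hd : a₀ * r₁ - a₁ * r₀ ≠ 0) (π : Place K (Om K)) (P : Pt (FC a₀ a₁ r₀ r₁ a b) (Om K))
    (Q : Pt (FC a₀ a₁ r₀ r₁ a' b') (Om K)) (hts : P.t = Q.t)
    (hc : ∃ c : K, aeval c (ln a₀ a₁ r₀ r₁ g) ≠ 0 ∧ Rd π.V π.φ (P.t X) c) :
    ∃ q : PX K, SpX g n n' π (em P Q) q ∧ SpX g n n' π (em P Q).o1 q.o1 ∧ SpX g n n' π (em P Q).o2 q.o2 ∧
      SpX g n n' π (em P Q).oo q.oo ∧ uu n n' g a b a' b' q = spvC (clX n n' g) π (P, Q) := by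
  classical
  obtain ⟨c, hgc, hσ⟩ := hc
  have b1 : BI π P.t := by
    rw [t_X P.t]
    exact bi_L hσ.mem
  have b2 : BI π Q.t := by
    rw [← hts]
    exact b1
  have hg : frm g (algebraMap K K a₀ + algebraMap K K r₀ * c) (algebraMap K K a₁ + algebraMap K K r₁ * c) ≠ 0 := by
    rw [← ln_eval]
    exact hgc
  have h0 : Rd π.V π.φ (algebraMap K (Om K) a₀ + algebraMap K (Om K) r₀ * P.t X)
      (algebraMap K K a₀ + algebraMap K K r₀ * c) := Rd.add (π.const _) (Rd.mul (π.const _) hσ)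
  have h1 : Rd π.V π.φ (algebraMap K (Om K) a₁ + algebraMap K (Om K) r₁ * P.t X)
      (algebraMap K K a₁ + algebraMap K K r₁ * c) := Rd.add (π.const _) (Rd.mul (π.const _) hσ)
  have hn := lin_nz (F := K) hd c
  obtain ⟨x, y, z, hP, hP'⟩ : ∃ x y z : K, S3 π P.x P.y 1 x y z ∧
      ((∃ i : P.Int π, x = (P.sp π i).x ∧ y = (P.sp π i).y ∧ z = 1) ∨ (¬P.Int π ∧ x = 0 ∧ y = 1 ∧ z = 0)) := by
    by_cases i1 : P.Int π
    · exact ⟨_, _, _, S3.pt (RdP.sp i1), Or.inl ⟨i1, rfl, rfl, rfl⟩⟩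
    · exact ⟨0, 1, 0, S3.inf b1 i1, Or.inr ⟨i1, rfl, rfl, rfl⟩⟩
  obtain ⟨u, v, r, hQ, hQ'⟩ : ∃ u v r : K, S3 π Q.x Q.y 1 u v r ∧
      ((∃ i : Q.Int π, u = (Q.sp π i).x ∧ v = (Q.sp π i).y ∧ r = 1) ∨ (¬Q.Int π ∧ u = 0 ∧ v = 1 ∧ r = 0)) := by
    by_cases i2 : Q.Int π
    · exact ⟨_, _, _, S3.pt (RdP.sp i2), Or.inl ⟨i2, rfl, rfl, rfl⟩⟩
    · exact ⟨0, 1, 0, S3.inf b2 i2, Or.inr ⟨i2, rfl, rfl, rfl⟩⟩
  refine ⟨⟨algebraMap K K a₀ + algebraMap K K r₀ * c, algebraMap K K a₁ + algebraMap K K r₁ * c,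
    x, y, z, u, v, r⟩, spX_mk hn hg h0 h1 hP hQ, spX_mk hn hg h0 h1 (S3.oo π) hQ, spX_mk hn hg h0 h1 hP (S3.oo π),
    spX_mk hn hg h0 h1 (S3.oo π) (S3.oo π), ?_⟩
  unfold spvC
  rcases hP' with ⟨i1, rfl, rfl, rfl⟩ | ⟨i1, rfl, rfl, rfl⟩
  · rcases hQ' with ⟨i2, rfl, rfl, rfl⟩ | ⟨i2, rfl, rfl, rfl⟩
    · rw [dif_pos ⟨i1, i2⟩]
      have e1 : (P.sp π i1).t = (Q.sp π i2).t := by
        refine AlgHom.ext fun f => ?_
        refine (spB_rd i1.1 f).unique ?_
        rw [hts]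
        exact spB_rd i2.1 f
      have e2 : (P.sp π i1).t X = c := (spB_rd i1.1 X).unique hσ
      unfold clX
      rw [if_pos ⟨e1, by rw [e2]; exact hgc⟩]
      show _ = uu n n' g a b a' b' (em (P.sp π i1) (Q.sp π i2))
      unfold em
      rw [e2]
    · rw [dif_neg fun h3 => i2 h3.2]
      exact uu_o2 (n := n) (n' := n') (g := g) (a := a) (b := b) (a' := a') (b' := b') ⟨algebraMap K K a₀ + algebraMap K K r₀ * c,
        algebraMap K K a₁ + algebraMap K K r₁ * c, (P.sp π i1).x, (P.sp π i1).y, 1, 0, 0, 0⟩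
  · rw [dif_neg fun h3 => i1 h3.1]
    exact uu_o1 (n := n) (n' := n') (g := g) (a := a) (b := b) (a' := a') (b' := b') ⟨algebraMap K K a₀ + algebraMap K K r₀ * c,
      algebraMap K K a₁ + algebraMap K K r₁ * c, 0, 0, 0, u, v, r⟩

/-- the key lemma for the classes of pairs over the same base point -/
theorem kkm (hd : a₀ * r₁ - a₁ * r₀ ≠ 0) (L : List (PP (FC a₀ a₁ r₀ r₁ a b) (FC a₀ a₁ r₀ r₁ a' b') (Om K))) (u u' : Option K)
    (v v' : Clq g n n' a b a' b') (hL : ∀ p ∈ L, p.1.t = p.2.t)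
    (hb : ∀ π : Place K (Om K), OverPl π u → ∀ p ∈ L, ∃ c : K, aeval c (ln a₀ a₁ r₀ r₁ g) ≠ 0 ∧ Rd π.V π.φ (p.1.t X) c)
    (hb' : ∀ π : Place K (Om K), OverPl π u' → ∀ p ∈ L, ∃ c : K, aeval c (ln a₀ a₁ r₀ r₁ g) ≠ 0 ∧ Rd π.V π.φ (p.1.t X) c)
    (h : ∀ π : Place K (Om K), OverPl π u → (L.map (spvC (clX n n' g) π)).sum = v)
    (h' : ∀ π : Place K (Om K), OverPl π u' → (L.map (spvC (clX n n' g) π)).sum = v') : v = v' := by
  have key : ∀ (π : Place K (Om K)), (∀ p ∈ L, ∃ c : K, aeval c (ln a₀ a₁ r₀ r₁ g) ≠ 0 ∧ Rd π.V π.φ (p.1.t X) c) →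
      ∃ q q' : List (PX K),
      List.Forall₂ (SpX g n n' π) (L.flatMap fun p => [em p.1 p.2, (em p.1 p.2).oo]) q ∧
      List.Forall₂ (SpX g n n' π) (L.flatMap fun p => [(em p.1 p.2).o2, (em p.1 p.2).o1]) q' ∧
      (q.map (kl g n n' a b a' b')).sum - (q'.map (kl g n n' a b a' b')).sum = (L.map (spvC (clX n n' g) π)).sum := by
    intro π hbi
    refine build π _ _ _ L fun p hp => ?_
    obtain ⟨q, h1, h2, h3, h4, h5⟩ := sp_one (n := n) (n' := n') hd π p.1 p.2 (hL p hp) (hbi p hp)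
    refine ⟨[q, q.oo], [q.o2, q.o1], ?_, ?_, ?_⟩
    · exact List.Forall₂.cons h1 (List.Forall₂.cons h4 List.Forall₂.nil)
    · exact List.Forall₂.cons h3 (List.Forall₂.cons h2 List.Forall₂.nil)
    · have e : spvC (clX n n' g) π p = uu n n' g a b a' b' q := h5.symm
      rw [e]
      unfold uu
      simp only [List.map_cons, List.map_nil, List.sum_cons, List.sum_nil, add_zero]
  obtain ⟨π₀, hπ₀⟩ := place_over (k := K) u
  have hon : ∀ p ∈ L, OnX g a b a' b' (em p.1 p.2) := by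
    intro p hp
    obtain ⟨c, hgc, hσ⟩ := hb π₀ hπ₀ p hp
    refine em_on hd p.1 p.2 (hL p hp) ?_
    exact (rd_aeval π₀ hσ (ln a₀ a₁ r₀ r₁ g)).ne_zero hgc
  refine kkP (L.flatMap fun p => [em p.1 p.2, (em p.1 p.2).oo]) (L.flatMap fun p => [(em p.1 p.2).o2, (em p.1 p.2).o1])
    ?_ ?_ u u' v v' ?_ ?_
  · intro x hx
    obtain ⟨p, hp, hxp⟩ := List.mem_flatMap.1 hx
    have h1 := hon p hp
    simp only [List.mem_cons, List.not_mem_nil, or_false] at hxp
    rcases hxp with rfl | rfl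
    · exact h1
    · exact oo_on h1
  · intro x hx
    obtain ⟨p, hp, hxp⟩ := List.mem_flatMap.1 hx
    have h1 := hon p hp
    simp only [List.mem_cons, List.not_mem_nil, or_false] at hxp
    rcases hxp with rfl | rfl
    · exact o2_on h1
    · exact o1_on h1
  · intro π hπ
    obtain ⟨q, q', e1, e2, e3⟩ := key π (hb π hπ)
    exact ⟨q, q', e1, e2, by rw [e3]; exact h π hπ⟩
  · intro π hπ
    obtain ⟨q, q', e1, e2, e3⟩ := key π (hb' π hπ)
    exact ⟨q, q', e1, e2, by rw [e3]; exact h' π hπ⟩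

variable (n n' g a b a' b') in
/-- the functional of a chart -/
noncomputable def PhX (hd : a₀ * r₁ - a₁ * r₀ ≠ 0) :
    Fn (FC a₀ a₁ r₀ r₁ a b) (FC a₀ a₁ r₀ r₁ a' b') (Clq g n n' a b a' b') where
  cl P Q := clX n n' g P Q
  tf m v hm hv := Clq.tf m v hm hv
  kc0 L c c' hL u u' v v' h h' := by
    classical
    by_cases hc : c = c' ∧ aeval (c X) (ln a₀ a₁ r₀ r₁ g) ≠ 0
    · obtain ⟨hcc, hg⟩ := hc
      subst hcc
      have hbi : ∀ π : Place K (Om K), ∀ p ∈ L, ∃ d : K, aeval d (ln a₀ a₁ r₀ r₁ g) ≠ 0 ∧ Rd π.V π.φ (p.1.t X) d := by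
        intro π p hp
        obtain ⟨e1, e2⟩ := hL p hp
        refine ⟨c X, hg, ?_⟩
        rw [e1]
        exact RdB.cst π c X
      exact kkm hd L u u' v v' (fun p hp => (hL p hp).1.trans (hL p hp).2.symm) (fun π _ => hbi π) (fun π _ => hbi π) h h'
    · have hz : ∀ π : Place K (Om K), (L.map (spvC (clX n n' g) π)).sum = 0 := by
        intro π
        refine List.sum_eq_zero fun x hx => ?_
        obtain ⟨p, hp, rfl⟩ := List.mem_map.1 hx
        obtain ⟨e1, e2⟩ := hL p hp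
        unfold spvC
        by_cases hI : p.1.Int π ∧ p.2.Int π
        · rw [dif_pos hI]
          unfold clX
          rw [if_neg]
          rintro ⟨h3, h6⟩
          apply hc
          have h4 : (p.1.sp π hI.1).t = c := by
            refine RdB.unique (RdP.sp hI.1).t ?_
            rw [e1]
            exact RdB.cst π _
          have h5 : (p.2.sp π hI.2).t = c' := by
            refine RdB.unique (RdP.sp hI.2).t ?_
            rw [e2]
            exact RdB.cst π _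
          rw [← h4, ← h5]
          exact ⟨h3, h6⟩
        · rw [dif_neg hI]
      obtain ⟨π, hπ⟩ := place_over (k := K) u
      obtain ⟨π', hπ'⟩ := place_over (k := K) u'
      rw [← h π hπ, ← h' π' hπ']
      exact (hz π).trans (hz π').symm

theorem PhX_cl (hd : a₀ * r₁ - a₁ * r₀ ≠ 0) (P : Pt (FC a₀ a₁ r₀ r₁ a b) K) (Q : Pt (FC a₀ a₁ r₀ r₁ a' b') K) (h : P.t = Q.t)
    (hg : aeval (P.t X) (ln a₀ a₁ r₀ r₁ g) ≠ 0) : (PhX n n' g a b a' b' hd).cl P Q = uu n n' g a b a' b' (em P Q) := by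
  show clX n n' g P Q = _
  unfold clX
  rw [if_pos ⟨h, hg⟩]

theorem PhX_kg (hd : a₀ * r₁ - a₁ * r₀ ≠ 0) : KG (PhX n n' g a b a' b' hd) (ln a₀ a₁ r₀ r₁ g) := by
  intro L u u' v v' hL hb hb' h h'
  exact kkm hd L u u' v v' hL hb hb' h h'

end fn

end H90.QG
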