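import Pool.Agent.H90.QG.Top

/-! # QG.Res : the theorem for zero-cycles (complete) -/

namespace H90.QG

open H68.BB
open H90.QF (C23)

theorem hom_sum {Y G : Type} [AddCommGroup G] (κ : (Y →₀ ℤ) →+ G) (z : Y →₀ ℤ) :
    κ z = z.sum fun p n => n • κ (Finsupp.single p 1) := by
  induction z using Finsupp.induction_linear with
  | zero => rw [Finsupp.sum_zero_index, map_zero]
  | add f g hf hg =>
    rw [map_add, hf, hg]
    exact (Finsupp.sum_add_index' (h := fun p n => n • κ (Finsupp.single p 1)) (fun p => zero_smul ℤ _)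
      (fun p a b => add_smul a b _)).symm
  | single a b =>
    rw [Finsupp.sum_single_index (h := fun p n => n • κ (Finsupp.single p 1)) (zero_smul ℤ _)]
    have h1 : (Finsupp.single a b : Y →₀ ℤ) = b • Finsupp.single a 1 := by
      rw [Finsupp.smul_single, smul_eq_mul, mul_one]
    rw [h1, map_zsmul]

theorem sum_md {Y G : Type} [AddCommGroup G] (γ : Y → Y) (f : Y → G) (z : Y →₀ ℤ) :
    (Finsupp.mapDomain γ z).sum (fun p n => n • f p) = z.sum fun p n => n • f (γ p) :=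
  Finsupp.sum_mapDomain_index (h := fun p n => n • f p) (fun p => zero_smul ℤ (f p)) (fun p a b => add_smul a b (f p))

/-- if the orbits of all points have the same class then the trace of a zero-cycle of degree zero has class zero -/
theorem hom_tr {Y G : Type} [AddCommGroup G] (κ : (Y →₀ ℤ) →+ G) (γ : Y → Y) (z : Y →₀ ℤ) (o : G)
    (H : ∀ p ∈ z.support, κ (Finsupp.single p 1) + κ (Finsupp.single (γ p) 1) = o) (hdg : (z.sum fun _ n => n) = 0) :
    κ (z + Finsupp.mapDomain γ z) = 0 := by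
  rw [map_add, hom_sum κ (Finsupp.mapDomain γ z), hom_sum κ z, sum_md γ (fun p => κ (Finsupp.single p 1)) z, ← Finsupp.sum_add]
  have e4 : (z.sum fun p n => n • κ (Finsupp.single p 1) + n • κ (Finsupp.single (γ p) 1)) = z.sum fun _ n => n • o := by
    unfold Finsupp.sum
    refine Finset.sum_congr rfl fun p hp => ?_
    show z p • κ (Finsupp.single p 1) + z p • κ (Finsupp.single (γ p) 1) = z p • o
    rw [← H p hp, smul_add]
  rw [e4]
  have e5 : (z.sum fun _ n => n • o) = (z.sum fun _ n => n) • o := by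
    unfold Finsupp.sum
    rw [Finset.sum_smul]
  rw [e5, hdg, zero_smul]

variable {K : Type} [Field K] [IsAlgClosed K] [C23 K] {n n' : ℕ} {g a b a' b' q A B E : MvPolynomial (Fin 2) K}
  (hA : a * a' = q ^ 4 * A) (hB : b * b' = q ^ 6 * B)
  (hE : (4 * a ^ 3 + 27 * b ^ 2) * (4 * a' ^ 3 + 27 * b' ^ 2) = q ^ 12 * E)
  (dA : A.IsHomogeneous 4) (dB : B.IsHomogeneous 6) (dE : E.IsHomogeneous 12)
  {e : ℕ} (dg' : g.IsHomogeneous e) {ρ₀ ρ₁ : K} (hρ : ρ₀ ≠ 0 ∨ ρ₁ ≠ 0) (hρE : frm E ρ₀ ρ₁ = 0) (hρg : frm g ρ₀ ρ₁ ≠ 0)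
include hA hB hE dA dB dE dg' hρ hρE hρg

theorem qg_main (z : Cy K) (hz : IsCy g a b a' b' z)
    (hdg : dg z = 0) : ∃ N : ℕ, 0 < N ∧ N • (z + ioC z) ∈ RatEq g n n' a b a' b' ∧ N • z ∈ RatEqQ g n n' a b a' b' := by
  have h0 : z + ioC z ∈ Sat g n n' a b a' b' := by
    have h1 := hom_tr (QuotientAddGroup.mk' (Sat g n n' a b a' b')) io z (2 • kl g n n' a b a' b' ⟨ρ₀, ρ₁, 0, 1, 0, 0, 1, 0⟩)
      (fun p hp => kl_tr (n := n) (n' := n') hA hB hE dA dB dE dg' hρ hρE hρg (hz p hp)) hdg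
    exact (QuotientAddGroup.eq_zero_iff _).1 h1
  obtain ⟨N, hN, h1⟩ := h0
  refine ⟨N * 2, Nat.mul_pos hN (by norm_num), ?_, ?_⟩
  · rw [mul_comm, mul_smul]
    exact (RatEq g n n' a b a' b').nsmul_mem h1 2
  · have z1 : z - ioC z ∈ RatEqQ g n n' a b a' b' :=
      (le_sup_right : _ ≤ RatEqQ g n n' a b a' b') (AddSubgroup.subset_closure ⟨z, hz, rfl⟩)
    have h2 : N • (z + ioC z) ∈ RatEqQ g n n' a b a' b' := (le_sup_left : _ ≤ RatEqQ g n n' a b a' b') h1
    have e : (N * 2) • z = N • (z + ioC z) + N • (z - ioC z) := by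
      rw [mul_smul, ← smul_add]
      congr 1
      abel
    rw [e]
    exact AddSubgroup.add_mem _ h2 (AddSubgroup.nsmul_mem _ z1 N)

/-- the class of `([P] - [O]) × ([Q] - [O])` is torsion -/
theorem qg_box (p : PX K) (hp : OnX g a b a' b' p) : ∃ N : ℕ, 0 < N ∧ N • bx p ∈ RatEq g n n' a b a' b' := by
  have h1 := uu_zero (n := n) (n' := n') hA hB hE dA dB dE dg' hρ hρE hρg hp
  have h2 : (QuotientAddGroup.mk (bx p) : Clq g n n' a b a' b') = uu n n' g a b a' b' p := by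
    unfold bx uu kl
    rw [QuotientAddGroup.mk_add, QuotientAddGroup.mk_sub, QuotientAddGroup.mk_sub]
    abel
  rw [h1] at h2
  exact (QuotientAddGroup.eq_zero_iff _).1 h2

end H90.QG
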