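import Pool.Agent.H90.QG.Pack

/-! # QG.RoitA : Roitman's argument if the leading coefficient is not zero (complete) -/

namespace H90.QG

open Polynomial H68.BB
open H71.K3 (RdQ int_root RdQ.C RdQ.mul RdQ.add RdQ.map)
open H90.QE (FF FF_map FF_deg)
open H90.QF

variable {k : Type} [Field k] [IsAlgClosed k] [C23 k] {a b a' b' q A B E : k[X]} {G : Type} [AddCommGroup G]
  (Φ : Fn (FL a b) (FL a' b') G)

/-- the linear homotopy from `p` to `p'` over `Ω` -/
private noncomputable def hh (p p' : k[X]) : (Om k)[X] :=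
  C (1 - tt k) * p.map (algebraMap k (Om k)) + C (tt k) * p'.map (algebraMap k (Om k))

omit [IsAlgClosed k] [C23 k] in
private theorem hh_zero {π : Place k (Om k)} (h : Rd π.V π.φ (tt k) 0) (p p' : k[X]) :
    RdQ π (hh p p') p := by
  have h1 := ((RdQ.C (Rd.one.sub h)).mul (RdQ.map (π := π) p)).add
    ((RdQ.C h).mul (RdQ.map (π := π) p'))
  have h2 : (C ((1:k) - 0) * p + C 0 * p' : k[X]) = p := by
    rw [sub_zero, C_1, C_0, one_mul, zero_mul, add_zero]
  rw [h2] at h1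
  exact h1

omit [IsAlgClosed k] [C23 k] in
private theorem hh_one {π : Place k (Om k)} (h : Rd π.V π.φ (tt k) 1) (p p' : k[X]) :
    RdQ π (hh p p') p' := by
  have h1 := ((RdQ.C (Rd.one.sub h)).mul (RdQ.map (π := π) p)).add
    ((RdQ.C h).mul (RdQ.map (π := π) p'))
  have h2 : (C ((1:k) - 1) * p + C 1 * p' : k[X]) = p' := by
    rw [sub_self, C_1, C_0, one_mul, zero_mul, zero_add]
  rw [h2] at h1
  exact h1

omit [IsAlgClosed k] [C23 k] in
private theorem hh_deg {p p' : k[X]} {n : ℕ} (hp : p.natDegree ≤ n) (hp' : p'.natDegree ≤ n) :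
    (hh p p').natDegree ≤ n := by
  unfold hh
  refine (natDegree_add_le _ _).trans (max_le ?_ ?_)
  · exact (natDegree_C_mul_le _ _).trans ((natDegree_map_le).trans hp)
  · exact (natDegree_C_mul_le _ _).trans ((natDegree_map_le).trans hp')

omit [IsAlgClosed k] [C23 k] in
private theorem rdq_con (π : Place k (Om k)) (c : k) :
    RdQ π (algebraMap k (Om k)[X] c) (algebraMap k k[X] c) := by
  rw [Polynomial.algebraMap_apply, Polynomial.algebraMap_apply]
  exact RdQ.C (π.const c)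

omit [IsAlgClosed k] [C23 k] in
private theorem rdq_nat (π : Place k (Om k)) (n : ℕ) [n.AtLeastTwo] :
    RdQ π (OfNat.ofNat n : (Om k)[X]) (OfNat.ofNat n : k[X]) := by
  have h := RdQ.C (rd_ofNat π n)
  rwa [map_ofNat, map_ofNat] at h

omit [IsAlgClosed k] [C23 k] in
private theorem rdq_aeval {π : Place k (Om k)} (p : k[X]) {q : (Om k)[X]} {q' : k[X]}
    (h : RdQ π q q') : RdQ π (aeval q p) (aeval q' p) := by
  induction p using Polynomial.induction_on' with
  | add p₁ p₂ h₁ h₂ => rw [map_add, map_add]; exact h₁.add h₂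
  | monomial n r =>
    rw [aeval_monomial, aeval_monomial]
    exact (rdq_con π r).mul (h.pow n)

omit [IsAlgClosed k] [C23 k] in
private theorem rdq_FF {π : Place k (Om k)} (pA pB pD : k[X]) {s x y T : (Om k)[X]} {s' x' y' T' : k[X]}
    (hs : RdQ π s s') (hx : RdQ π x x') (hy : RdQ π y y') (hT : RdQ π T T') :
    RdQ π (FF pA pB pD s x y T) (FF pA pB pD s' x' y' T') := by
  unfold FF
  exact ((hT.pow 2).add (hT.mul ((((hx.pow 3).sub (((rdq_nat π 48).mul (rdq_aeval pA hs)).mul hx)).add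
    ((rdq_nat π 864).mul (rdq_aeval pB hs))).sub (hy.pow 2)))).add
    ((rdq_nat π 256).mul (rdq_aeval pD hs))

theorem roit_a {g : k[X]} (hkk : KG Φ g) (hd : Dat a b a' b' q A B E) {σ₀ x₀ y₀ T₀ : k} (hw : Good (mkw a b a' b' q σ₀ x₀ y₀ T₀)) {u : k}
    (hu : aeval u E = 0) (hgu : aeval u g ≠ 0) (hgσ : aeval σ₀ g ≠ 0) {a1 c' : k} {x y T : k[X]} (hx : x.natDegree ≤ 2) (hy : y.natDegree ≤ 3)
    (hT : T.natDegree ≤ 6) (hx0 : x.eval 0 = x₀) (hy0 : y.eval 0 = y₀) (hT0 : T.eval 0 = T₀)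
    (hF : FF A B E (C σ₀ + C a1 * X) x y T = C c' * X ^ 12)
    (hc : c' ≠ 0) : CC Φ (mkw a b a' b' q σ₀ x₀ y₀ T₀) = 0 := by
  classical
  set ql : k[X] := C σ₀ + C a1 * X with hql
  set QQ : (Om k)[X] := hh ql (C u) with hQQ
  set XX : (Om k)[X] := hh x (C x₀) with hXX
  set YY : (Om k)[X] := hh y (C y₀) with hYY
  set TT : (Om k)[X] := hh T (X ^ 6) with hTT
  set H : (Om k)[X] := FF A B E QQ XX YY TT with hH
  have hC : ∀ (z : k) (n : ℕ), (C z : k[X]).natDegree ≤ n := fun z n => by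
    rw [natDegree_C]
    exact Nat.zero_le n
  have hdeg : H.natDegree ≤ 12 := by
    have hlin : ∀ z z' : k, (C z + C z' * X : k[X]).natDegree ≤ 1 := fun z z' => by
      refine (natDegree_add_le _ _).trans (max_le (hC _ _) ?_)
      exact (natDegree_C_mul_le _ _).trans natDegree_X_le
    exact FF_deg hd.dA hd.dB hd.dE (hh_deg (hlin _ _) (hC _ _))
      (hh_deg hx (hC _ _)) (hh_deg hy (hC _ _)) (hh_deg hT (natDegree_X_pow_le _))
  -- reduction at the places over zero
  have hred0 : ∀ π : Place k (Om k), OverPl π (some 0) → RdQ π H (C c' * X ^ 12) := by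
    intro π hπ
    rw [← hF]
    exact rdq_FF _ _ _ (hh_zero hπ _ _) (hh_zero hπ _ _) (hh_zero hπ _ _) (hh_zero hπ _ _)
  have hc12 : (C c' * X ^ 12 : k[X]).coeff 12 ≠ 0 := by
    rw [coeff_C_mul, coeff_X_pow, if_pos rfl, mul_one]
    exact hc
  -- reduction at the places over one
  have hred1 : ∀ π : Place k (Om k), OverPl π (some 1) →
      RdQ π H (FF A B E (C u) (C x₀) (C y₀) (X ^ 6)) := by
    intro π hπ
    exact rdq_FF _ _ _ (hh_one hπ _ _) (hh_one hπ _ _) (hh_one hπ _ _) (hh_one hπ _ _)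
  have haC : ∀ p : k[X], aeval (C u : k[X]) p = C (aeval u p) := by
    intro p
    have h1 := aeval_algHom_apply (Polynomial.CAlgHom : k →ₐ[k] k[X]) u p
    exact h1
  have h112 : (FF A B E (C u) (C x₀) (C y₀) (X ^ 6) : k[X]).coeff 12 ≠ 0 := by
    have e : (FF A B E (C u) (C x₀) (C y₀) (X ^ 6) : k[X]) =
        X ^ 12 + C (x₀ ^ 3 - 48 * (aeval u A) * x₀ + 864 * aeval u B - y₀ ^ 2) * X ^ 6 := by
      unfold FF
      rw [haC A, haC B, haC E, hu, C_0]
      simp only [C_add, C_sub, C_mul, C_pow, map_ofNat]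
      ring
    rw [e, coeff_add, coeff_C_mul, coeff_X_pow, coeff_X_pow, if_pos rfl, if_neg (by norm_num),
      mul_zero, add_zero]
    exact one_ne_zero
  obtain ⟨π₀, hπ₀⟩ := place_over (k := k) (some 0)
  have hH12 : H.coeff 12 ≠ 0 := (hred0 π₀ hπ₀ 12).ne_zero hc12
  have hnd : H.natDegree = 12 := le_antisymm hdeg (le_natDegree_of_ne_zero hH12)
  have hcard : H.roots.toList.length = 12 := by
    rw [Multiset.length_toList, ← hnd]
    exact (IsAlgClosed.splits H).natDegree_eq_card_roots.symm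
  -- values at a root
  have hroot : ∀ r ∈ H.roots, H.eval r = 0 := fun r hr => (mem_roots'.1 hr).2
  have hFr : ∀ r ∈ H.roots, FF A B E (QQ.eval r) (XX.eval r) (YY.eval r) (TT.eval r) = 0 := by
    intro r hr
    have h1 := FF_map ((Polynomial.aeval r : (Om k)[X] →ₐ[Om k] Om k).restrictScalars k) A B E
      QQ XX YY TT
    have h2 : ∀ p : (Om k)[X], ((Polynomial.aeval r : (Om k)[X] →ₐ[Om k] Om k).restrictScalars k) p =
        p.eval r := fun p => by
      rw [AlgHom.restrictScalars_apply, coe_aeval_eq_eval]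
    rw [h2, h2, h2, h2, h2] at h1
    rw [← h1]
    exact hroot r hr
  have hF0 : ∀ r ∈ H.roots, ∀ π : Place k (Om k), OverPl π (some 0) →
      RdF π (QQ.eval r) (XX.eval r) (YY.eval r) (TT.eval r) σ₀ x₀ y₀ T₀ := by
    intro r hr π hπ
    obtain ⟨r₀, h1, h2⟩ := int_root π hdeg (hred0 π hπ) hc12 (hroot r hr)
    have h3 : r₀ = 0 := by
      rw [eval_mul, eval_C, eval_pow, eval_X] at h2
      exact pow_eq_zero_iff (by norm_num) |>.1 ((mul_eq_zero.1 h2).resolve_left hc)
    subst h3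
    refine ⟨?_, ?_, ?_, ?_⟩
    · have h := (hh_zero hπ ql (C u)).eval h1
      rw [hql, eval_add, eval_C, eval_mul, eval_X, mul_zero, add_zero, ← hql] at h
      exact h
    · have h := (hh_zero hπ x (C x₀)).eval h1
      rw [hx0] at h
      exact h
    · have h := (hh_zero hπ y (C y₀)).eval h1
      rw [hy0] at h
      exact h
    · have h := (hh_zero hπ T (X ^ 6)).eval h1
      rw [hT0] at h
      exact h
  have hF1 : ∀ r ∈ H.roots, ∀ π : Place k (Om k), OverPl π (some 1) → Rd π.V π.φ (QQ.eval r) u := by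
    intro r hr π hπ
    obtain ⟨r₀, h3, -⟩ := int_root π hdeg (hred1 π hπ) h112 (hroot r hr)
    have e1 := (hh_one hπ ql (C u)).eval h3
    rw [eval_C] at e1
    exact e1
  have hex : ∀ r ∈ H.roots, ∃ p : PP (FL a b) (FL a' b') (Om k), p.1.t = p.2.t ∧
      (∀ π : Place k (Om k), OverPl π (some 0) → (∃ c : k, aeval c g ≠ 0 ∧ Rd π.V π.φ (p.1.t X) c) ∧
        Φ.spv π p = CC Φ (mkw a b a' b' q σ₀ x₀ y₀ T₀)) ∧
      (∀ π : Place k (Om k), OverPl π (some 1) → (∃ c : k, aeval c g ≠ 0 ∧ Rd π.V π.φ (p.1.t X) c) ∧ Φ.spv π p = 0) := by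
    intro r hr
    obtain ⟨P, Q, hts, h0, h1, h2⟩ := packG Φ hd hw (hFr r hr) (hF0 r hr π₀ hπ₀)
    refine ⟨(P, Q), hts, fun π hπ => ⟨⟨σ₀, hgσ, ?_⟩, h1 π (hF0 r hr π hπ)⟩, fun π hπ =>
      ⟨⟨u, hgu, ?_⟩, h2 π u hu (hF1 r hr π hπ)⟩⟩
    · show Rd π.V π.φ (P.t X) σ₀
      rw [h0]
      exact (hF0 r hr π hπ).s
    · show Rd π.V π.φ (P.t X) u
      rw [h0]
      exact hF1 r hr π hπ
  have hne : Nonempty (PP (FL a b) (FL a' b') (Om k)) := by
    have hpos : 0 < H.roots.toList.length := by rw [hcard]; norm_num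
    obtain ⟨r, hr⟩ := List.exists_mem_of_length_pos hpos
    obtain ⟨p, -⟩ := hex r (Multiset.mem_toList.1 hr)
    exact ⟨p⟩
  choose! pf hts hL0 hL1 using hex
  have h12 := hkk (H.roots.toList.map pf) (some 0) (some 1) (12 • CC Φ (mkw a b a' b' q σ₀ x₀ y₀ T₀)) 0
    (fun p hp => by
      obtain ⟨r, hr, rfl⟩ := List.mem_map.1 hp
      exact hts r (Multiset.mem_toList.1 hr))
    (fun π hπ p hp => by
      obtain ⟨r, hr, rfl⟩ := List.mem_map.1 hp
      exact (hL0 r (Multiset.mem_toList.1 hr) π hπ).1)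
    (fun π hπ p hp => by
      obtain ⟨r, hr, rfl⟩ := List.mem_map.1 hp
      exact (hL1 r (Multiset.mem_toList.1 hr) π hπ).1)
    (fun π hπ => by
      rw [List.map_map]
      have h1 : H.roots.toList.map (Φ.spv π ∘ pf) = List.replicate 12 (CC Φ (mkw a b a' b' q σ₀ x₀ y₀ T₀)) := by
        rw [List.eq_replicate_iff]
        refine ⟨by rw [List.length_map, hcard], ?_⟩
        intro z hz
        obtain ⟨r, hr, rfl⟩ := List.mem_map.1 hz
        exact (hL0 r (Multiset.mem_toList.1 hr) π hπ).2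
      rw [h1, List.sum_replicate])
    (fun π hπ => by
      rw [List.map_map]
      have h1 : H.roots.toList.map (Φ.spv π ∘ pf) = List.replicate 12 (0 : G) := by
        rw [List.eq_replicate_iff]
        refine ⟨by rw [List.length_map, hcard], ?_⟩
        intro z hz
        obtain ⟨r, hr, rfl⟩ := List.mem_map.1 hz
        exact (hL1 r (Multiset.mem_toList.1 hr) π hπ).2
      rw [h1, List.sum_replicate, smul_zero])
  exact Φ.tf 12 _ (by norm_num) h12

end H90.QG
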