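import Pool.Agent.H90.QG.Fin

/-! # QG.Top : every zero-cycle of degree zero on the quotient of `X_g` by `(P, Q) ↦ (-P, -Q)` is torsion (complete) -/

namespace H90.QG

open Polynomial H68.BB
open H71.K3 (OverPl place_over)
open H90.QF

section pair
variable {K : Type} [Field K] [IsAlgClosed K] {n n' : ℕ} {g a b a' b' q A B E : MvPolynomial (Fin 2) K}

/-- a point of `X` away from the zero sections is a pair of points of a chart -/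
theorem em_ex {p : PX K} (hp : OnX g a b a' b' p) (hz : p.Z = 1) (hr : p.R = 1) (r₀ r₁ : K) :
    ∃ (P : Pt (FC p.s₀ p.s₁ r₀ r₁ a b) K) (Q : Pt (FC p.s₀ p.s₁ r₀ r₁ a' b') K), P.t = Q.t ∧ em P Q = p := by
  obtain ⟨-, -, h4, h5⟩ := hp
  rw [hz] at h4
  rw [hr] at h5
  have ev : ∀ f : MvPolynomial (Fin 2) K, aeval (0 : K) (ln p.s₀ p.s₁ r₀ r₁ f) = frm f p.s₀ p.s₁ := by
    intro f
    rw [ln_eval, mul_zero, mul_zero, add_zero, add_zero]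
    rfl
  refine ⟨⟨aeval (0 : K), p.X, p.Y, ?_⟩, ⟨aeval (0 : K), p.U, p.V, ?_⟩, rfl, ?_⟩
  · show p.Y ^ 2 = p.X ^ 3 + aeval (0 : K) (ln p.s₀ p.s₁ r₀ r₁ a) * p.X + aeval (0 : K) (ln p.s₀ p.s₁ r₀ r₁ b)
    rw [ev, ev]
    linear_combination h4
  · show p.V ^ 2 = p.U ^ 3 + aeval (0 : K) (ln p.s₀ p.s₁ r₀ r₁ a') * p.U + aeval (0 : K) (ln p.s₀ p.s₁ r₀ r₁ b')
    rw [ev, ev]
    linear_combination h5
  · refine PX.ext ?_ ?_ rfl rfl hz.symm rfl rfl hr.symm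
    · show algebraMap K K p.s₀ + algebraMap K K r₀ * aeval (0 : K) X = p.s₀
      rw [aeval_X, mul_zero, add_zero]
      rfl
    · show algebraMap K K p.s₁ + algebraMap K K r₁ * aeval (0 : K) X = p.s₁
      rw [aeval_X, mul_zero, add_zero]
      rfl

theorem sc_on {p : PX K} (hp : OnX g a b a' b' p) {μ ν : K} (hμ : μ ≠ 0) (hν : ν ≠ 0) : OnX g a b a' b' (p.sc μ ν) := by
  obtain ⟨⟨h1, h2, h3⟩, hg, h4, h5⟩ := hp
  refine ⟨⟨h1, ?_, ?_⟩, hg, ?_, ?_⟩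
  · rcases h2 with h2 | h2 | h2
    · exact Or.inl (mul_ne_zero hμ h2)
    · exact Or.inr (Or.inl (mul_ne_zero hμ h2))
    · exact Or.inr (Or.inr (mul_ne_zero hμ h2))
  · rcases h3 with h3 | h3 | h3
    · exact Or.inl (mul_ne_zero hν h3)
    · exact Or.inr (Or.inl (mul_ne_zero hν h3))
    · exact Or.inr (Or.inr (mul_ne_zero hν h3))
  · show (μ * p.Y) ^ 2 * (μ * p.Z) = (μ * p.X) ^ 3 + frm a p.s₀ p.s₁ * (μ * p.X) * (μ * p.Z) ^ 2 + frm b p.s₀ p.s₁ * (μ * p.Z) ^ 3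
    linear_combination μ ^ 3 * h4
  · show (ν * p.V) ^ 2 * (ν * p.R) = (ν * p.U) ^ 3 + frm a' p.s₀ p.s₁ * (ν * p.U) * (ν * p.R) ^ 2 + frm b' p.s₀ p.s₁ * (ν * p.R) ^ 3
    linear_combination ν ^ 3 * h5

variable [C23 K] (hA : a * a' = q ^ 4 * A) (hB : b * b' = q ^ 6 * B)
  (hE : (4 * a ^ 3 + 27 * b ^ 2) * (4 * a' ^ 3 + 27 * b' ^ 2) = q ^ 12 * E)
  (dA : A.IsHomogeneous 4) (dB : B.IsHomogeneous 6) (dE : E.IsHomogeneous 12)
  {e : ℕ} (dg' : g.IsHomogeneous e) {ρ₀ ρ₁ : K} (hρ : ρ₀ ≠ 0 ∨ ρ₁ ≠ 0) (hρE : frm E ρ₀ ρ₁ = 0) (hρg : frm g ρ₀ ρ₁ ≠ 0)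
include hA hB hE dA dB dE dg' hρ hρE hρg

theorem uu_zero {p : PX K} (hp : OnX g a b a' b' p) : uu n n' g a b a' b' p = 0 := by
  by_cases hz : p.Z = 0
  · obtain ⟨hx, hy⟩ := z_zero hp hz
    have e1 : p.sc p.Y⁻¹ 1 = p.o1 := by
      unfold PX.sc PX.o1
      rw [hx, hz, mul_zero, inv_mul_cancel₀ hy]
      simp only [one_mul]
    rw [← uu_sc hp (inv_ne_zero hy) (one_ne_zero (α := K)), e1]
    exact uu_o1 p
  by_cases hr : p.R = 0
  · obtain ⟨hx, hy⟩ := r_zero hp hr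
    have e1 : p.sc 1 p.V⁻¹ = p.o2 := by
      unfold PX.sc PX.o2
      rw [hx, hr, mul_zero, inv_mul_cancel₀ hy]
      simp only [one_mul]
    rw [← uu_sc hp (one_ne_zero (α := K)) (inv_ne_zero hy), e1]
    exact uu_o2 p
  rw [← uu_sc hp (inv_ne_zero hz) (inv_ne_zero hr)]
  have hp' := sc_on hp (inv_ne_zero hz) (inv_ne_zero hr)
  obtain ⟨r₀, r₁, hdet, hdet'⟩ := exists_chart hp'.1.1 hρ
  obtain ⟨u, hu, hgu⟩ := chart_root (a₀ := (p.sc p.Z⁻¹ p.R⁻¹).s₀) (a₁ := (p.sc p.Z⁻¹ p.R⁻¹).s₁) dE dg' hρ hρE hρg hdet hdet'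
  obtain ⟨P, Q, hts, hem⟩ := em_ex hp' (inv_mul_cancel₀ hz) (inv_mul_cancel₀ hr) r₀ r₁
  have hgP : aeval (P.t X) (ln (p.sc p.Z⁻¹ p.R⁻¹).s₀ (p.sc p.Z⁻¹ p.R⁻¹).s₁ r₀ r₁ g) ≠ 0 := by
    rw [ln_eval]
    have h2 := congrArg PX.s₀ hem
    have h3 := congrArg PX.s₁ hem
    change algebraMap K K _ + algebraMap K K r₀ * P.t X = _ at h2
    change algebraMap K K _ + algebraMap K K r₁ * P.t X = _ at h3
    rw [h2, h3]
    exact hp'.2.1
  have h1 := main_all (PhX n n' g a b a' b' hdet) (PhX_kg hdet) (dat_ln _ _ _ _ hA hB hE dA dB dE) hu hgu P Q hts hgP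
  rw [PhX_cl hdet P Q hts hgP, hem] at h1
  exact h1

/-- the class of the orbit of a point -/
theorem kl_tr {p : PX K} (hp : OnX g a b a' b' p) :
    kl g n n' a b a' b' p + kl g n n' a b a' b' (io p) = 2 • kl g n n' a b a' b' ⟨ρ₀, ρ₁, 0, 1, 0, 0, 1, 0⟩ := by
  have hio : OnX g a b a' b' (io p) := n2_on (n1_on hp)
  have u1 := uu_zero (n := n) (n' := n') hA hB hE dA dB dE dg' hρ hρE hρg hp
  have u2 := uu_zero (n := n) (n' := n') hA hB hE dA dB dE dg' hρ hρE hρg hio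
  have a1 := kl_n1 (n := n) (n' := n') (o2_on hp)
  have a2 := kl_n2 (n := n) (n' := n') (o1_on hp)
  have a3 := kl_oo (n := n) (n' := n') (a := a) (b := b) (a' := a') (b' := b') hp.1.1 hρ hp.2.1 hρg
  have e1 : p.o2.n1 = (io p).o2 := rfl
  have e2 : p.o1.n2 = (io p).o1 := rfl
  have e3 : p.o2.o1 = p.oo := rfl
  have e4 : p.o1.o2 = p.oo := rfl
  have e5 : (io p).oo = p.oo := rfl
  have e6 : (⟨p.s₀, p.s₁, 0, 1, 0, 0, 1, 0⟩ : PX K) = p.oo := rfl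
  rw [e1, e3] at a1
  rw [e2, e4] at a2
  rw [e6] at a3
  unfold uu at u1 u2
  rw [e5] at u2
  rw [← a3]
  have h1 : kl g n n' a b a' b' p = kl g n n' a b a' b' p.o2 + kl g n n' a b a' b' p.o1 - kl g n n' a b a' b' p.oo := by
    rw [sub_eq_zero] at u1
    rw [← u1, add_sub_cancel_right]
  have h2 : kl g n n' a b a' b' (io p) = kl g n n' a b a' b' (io p).o2 + kl g n n' a b a' b' (io p).o1 - kl g n n' a b a' b' p.oo := by
    rw [sub_eq_zero] at u2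
    rw [← u2, add_sub_cancel_right]
  rw [h1, h2]
  have h3 : kl g n n' a b a' b' p.o2 + kl g n n' a b a' b' p.o1 - kl g n n' a b a' b' p.oo +
      (kl g n n' a b a' b' (io p).o2 + kl g n n' a b a' b' (io p).o1 - kl g n n' a b a' b' p.oo) =
      (kl g n n' a b a' b' p.o2 + kl g n n' a b a' b' (io p).o2) + (kl g n n' a b a' b' p.o1 + kl g n n' a b a' b' (io p).o1) -
      2 • kl g n n' a b a' b' p.oo := by abel
  rw [h3, a1, a2]
  abel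

end pair

end H90.QG
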